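import Mathlib

/-!
# Congruence topologies on commutative groups: the extension lemma
-/

set_option autoImplicit false

namespace Pool.Agent.H4.CS

theorem tors_exp (Q : Type*) [AddCommGroup Q] [AddGroup.FG Q] :
    ∃ k : ℕ, k ≠ 0 ∧ ∀ (x : Q) (n : ℕ), n ≠ 0 → n • x = 0 → k • x = 0 := by
  have : Module.Finite ℤ Q := Module.Finite.iff_addGroup_fg.2 inferInstance
  let T := Submodule.torsion ℤ Q
  have : Module.Finite ℤ T := inferInstance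
  have hT : Finite T := Module.finite_of_fg_torsion T (Submodule.torsion_isTorsion)
  refine ⟨Nat.card T, Nat.card_pos.ne', ?_⟩
  intro x n hn hx
  have h1 : x ∈ T := by
    rw [Submodule.mem_torsion_iff]
    refine ⟨⟨(n : ℤ), mem_nonZeroDivisors_of_ne_zero (by exact_mod_cast hn)⟩, ?_⟩
    rw [Submonoid.mk_smul, natCast_zsmul]
    exact hx
  have h2 : Nat.card T • (⟨x, h1⟩ : T) = 0 := card_nsmul_eq_zero'
  exact congrArg Subtype.val h2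

/-- powers in a subgroup of a finitely generated abelian group -/
theorem sat (T : Type*) [CommGroup T] [Group.FG T] (H : Subgroup T) (e : ℕ) (he : e ≠ 0) :
    ∃ k : ℕ, k ≠ 0 ∧ ∀ x : T, x ^ k ∈ H → ∃ y ∈ H, y ^ e = x ^ k := by
  let P := H.map (powMonoidHom e : T →* T)
  have : Group.FG (T ⧸ P) := QuotientGroup.fg _
  obtain ⟨k, hk, hk2⟩ := tors_exp (Additive (T ⧸ P))
  refine ⟨k, hk, ?_⟩
  intro x hx
  have h1 : k • (Additive.ofMul (QuotientGroup.mk x : T ⧸ P)) = 0 := by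
    refine hk2 _ (k * e) (mul_ne_zero hk he) ?_
    have h2 : (QuotientGroup.mk (x ^ (k * e)) : T ⧸ P) = 1 := by
      rw [QuotientGroup.eq_one_iff]
      exact ⟨x ^ k, hx, (pow_mul x k e).symm⟩
    rw [QuotientGroup.mk_pow] at h2
    exact congrArg Additive.ofMul h2
  have h2 : (QuotientGroup.mk (x ^ k) : T ⧸ P) = 1 := by
    rw [QuotientGroup.mk_pow]
    exact congrArg Additive.toMul h1
  rw [QuotientGroup.eq_one_iff] at h2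
  obtain ⟨y, hy, hy2⟩ := h2
  exact ⟨y, hy, hy2⟩

/-- the congruence property for a subgroup -/
def PC {M : Type*} [CommGroup M] (Γ : ℕ → Subgroup M) (H : Subgroup M) : Prop :=
  ∀ e : ℕ, e ≠ 0 → ∃ m : ℕ, m ≠ 0 ∧ ∀ x ∈ H, x ∈ Γ m → ∃ y ∈ H, y ^ e = x

theorem ext {M : Type*} [CommGroup M] (Γ : ℕ → Subgroup M)
    (hΓ : ∀ a b, Γ (a * b) ≤ Γ a ⊓ Γ b)
    (hE : ∀ m : ℕ, m ≠ 0 → ∃ E : ℕ, E ≠ 0 ∧ ∀ x : M, x ^ E ∈ Γ m)
    (H H' : Subgroup M) (hHH : H' ≤ H) (T : Type*) [CommGroup T] [Group.FG T] (θ : H →* T)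
    (hker : ∀ x : H, θ x = 1 → (x : M) ∈ H')
    (hT : ∀ k : ℕ, k ≠ 0 → ∃ m : ℕ, m ≠ 0 ∧ ∀ x : H, (x : M) ∈ Γ m → ∃ y : T, y ^ k = θ x)
    (h : PC Γ H') : PC Γ H := by
  intro e he
  obtain ⟨m1, hm1, h1⟩ := h e he
  obtain ⟨E, hE0, hE1⟩ := hE m1 hm1
  obtain ⟨k, hk, hk1⟩ := sat T θ.range (E * e) (mul_ne_zero hE0 he)
  obtain ⟨m2, hm2, h2⟩ := hT k hk
  refine ⟨m1 * m2, mul_ne_zero hm1 hm2, ?_⟩
  intro u hu hu2
  have hu3 := hΓ m1 m2 hu2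
  obtain ⟨x, hx⟩ := h2 ⟨u, hu⟩ hu3.2
  obtain ⟨_, ⟨s, rfl⟩, hy⟩ := hk1 x (by rw [hx]; exact ⟨_, rfl⟩)
  rw [hx, ← map_pow] at hy
  have h3 : θ ((s ^ (E * e))⁻¹ * ⟨u, hu⟩) = 1 := by
    rw [map_mul, map_inv, hy, inv_mul_cancel]
  have h4 := hker _ h3
  have h5 : (((s ^ (E * e))⁻¹ * ⟨u, hu⟩ : H) : M) = ((s : M) ^ (E * e))⁻¹ * u := by
    simp
  rw [h5] at h4
  have h6 : ((s : M) ^ (E * e))⁻¹ * u ∈ Γ m1 := by
    refine (Γ m1).mul_mem ((Γ m1).inv_mem ?_) hu3.1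
    rw [pow_mul]
    exact (Γ m1).pow_mem (hE1 s) e
  obtain ⟨y, hy1, hy2⟩ := h1 _ h4 h6
  refine ⟨(s : M) ^ E * y, H.mul_mem (H.pow_mem s.2 E) (hHH hy1), ?_⟩
  rw [mul_pow, hy2, ← pow_mul, mul_inv_cancel_left]

end Pool.Agent.H4.CS
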