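import Mathlib

/-!
# Maps of orders to rings of integers of number fields
-/

set_option autoImplicit false

namespace Pool.Agent.H4.CS

open NumberField TensorProduct

theorem nf_of_finite (K : Type) [Field K] [inst : Algebra ℚ K] [h : Module.Finite ℚ K] :
    NumberField K := by
  have h1 : CharZero K := algebraRat.charZero K
  have h2 : inst = DivisionRing.toRatAlgebra := Subsingleton.elim _ _
  subst h2
  exact ⟨⟩

theorem red_aux (R A : Type) [CommRing R] [CommRing A] [Algebra ℚ A] [Module.Finite ℚ A]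
    (hR : ∀ x : R, IsIntegral ℤ x) (g : R →+* A) (hg : Function.Injective g) :
    ∃ (ι : Type) (_ : Fintype ι) (K : ι → Type) (_ : ∀ i, Field (K i))
      (_ : ∀ i, NumberField (K i)) (f : ∀ i, R →+* 𝓞 (K i)),
      ∀ x, (∀ i, f i x = 0) → IsNilpotent x := by
  have hA : IsArtinianRing A := IsArtinianRing.of_finite ℚ A
  let F : ∀ i : MaximalSpectrum A, Field (A ⧸ i.asIdeal) := fun i =>
    have := i.isMaximal
    Ideal.Quotient.field i.asIdeal
  have hNF : ∀ i : MaximalSpectrum A, @NumberField (A ⧸ i.asIdeal) (F i) := by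
    intro i
    letI := F i
    exact nf_of_finite (A ⧸ i.asIdeal)
  let f : ∀ i : MaximalSpectrum A, R →+* @RingOfIntegers (A ⧸ i.asIdeal) (F i) := fun i =>
    letI := F i
    ((Ideal.Quotient.mk i.asIdeal).comp g).codRestrict (integralClosure ℤ (A ⧸ i.asIdeal)) (by
      intro x
      exact (hR x).map (((Ideal.Quotient.mk i.asIdeal).comp g).toIntAlgHom))
  refine ⟨MaximalSpectrum A, Fintype.ofFinite _, fun i => A ⧸ i.asIdeal, F, hNF, f, ?_⟩
  intro x hx
  have h1 : ∀ i : MaximalSpectrum A, g x ∈ i.asIdeal := by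
    intro i
    rw [← Ideal.Quotient.eq_zero_iff_mem]
    exact congrArg Subtype.val (hx i)
  have h2 : g x ∈ Ideal.jacobson (⊥ : Ideal A) := by
    rw [Ideal.mem_jacobson_bot] at *
    intro y
    by_contra hu
    obtain ⟨m, hm, hm2⟩ := exists_max_ideal_of_mem_nonunits hu
    have h3 := h1 ⟨m, hm⟩
    apply hm.ne_top
    rw [Ideal.eq_top_iff_one]
    have h4 := m.sub_mem hm2 (m.mul_mem_right y h3)
    simpa using h4
  obtain ⟨n, hn⟩ := IsArtinianRing.isNilpotent_jacobson_bot (R := A)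
  refine ⟨n, hg ?_⟩
  rw [map_pow, map_zero]
  have h5 := Ideal.pow_mem_pow h2 n
  rw [hn] at h5
  exact h5

theorem red (R : Type) [CommRing R] [Module.Finite ℤ R] [Module.IsTorsionFree ℤ R] :
    ∃ (ι : Type) (_ : Fintype ι) (K : ι → Type) (_ : ∀ i, Field (K i))
      (_ : ∀ i, NumberField (K i)) (f : ∀ i, R →+* 𝓞 (K i)),
      ∀ x, (∀ i, f i x = 0) → IsNilpotent x := by
  refine red_aux R (ℚ ⊗[ℤ] R) (fun x => Algebra.IsIntegral.isIntegral x)
    (Algebra.TensorProduct.includeRight : R →ₐ[ℤ] ℚ ⊗[ℤ] R).toRingHom ?_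
  exact Algebra.TensorProduct.includeRight_injective (FaithfulSMul.algebraMap_injective ℤ ℚ)

end Pool.Agent.H4.CS
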