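import Mathlib
import Pool.Agent.H21.L.R_seed8.W401.Cheb.Main

/-!
# Kummer theory and Frobenius elements
-/

set_option autoImplicit false

namespace Pool.Agent.H4.CS

open NumberField IntermediateField

open Pool.Agent.W401.Cheb in
theorem exists_frob (N : Type) [Field N] [NumberField N] [IsGalois ℚ N] (g : Gal(N/ℚ)) (B : ℕ) :
    ∃ (p : ℕ) (_ : Fact p.Prime) (φ : 𝓞 N →+* AlgebraicClosure (ZMod p)),
      B < p ∧ ∀ x : 𝓞 N, φ (g • x) = φ x ^ p := by
  obtain ⟨p, hp, hB⟩ := (infinite_frob N g).exists_gt B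
  obtain ⟨hp1, hp2⟩ := hp
  unfold xp at hp2
  rw [dif_pos hp1] at hp2
  have : Fact p.Prime := ⟨hp1⟩
  have h1 : Nonempty {φ : 𝓞 N →+* AlgebraicClosure (ZMod p) // HasFrob p φ g} := by
    by_contra h
    rw [not_nonempty_iff] at h
    exact hp2 Nat.card_of_isEmpty
  obtain ⟨φ, hφ⟩ := h1
  exact ⟨p, ⟨hp1⟩, φ, hB, hφ⟩

theorem exists_field_aux (Ω : Type) [Field Ω] [CharZero Ω] [IsAlgClosed Ω] [IsGalois ℚ Ω]
    (L : Type) [Field L] [NumberField L] (M : ℕ) (hM : 0 < M) (u : L) :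
    ∃ (N : Type) (_ : Field N) (_ : NumberField N) (_ : IsGalois ℚ N) (_ : Algebra L N),
      ∃ ζ w : N, IsPrimitiveRoot ζ M ∧ w ^ M = algebraMap L N u := by
  have : NeZero M := ⟨hM.ne'⟩
  let i : L →ₐ[ℚ] Ω := IsAlgClosed.lift
  obtain ⟨ζ, hζ⟩ : ∃ ζ : Ω, IsPrimitiveRoot ζ M :=
    HasEnoughRootsOfUnity.exists_primitiveRoot Ω M
  obtain ⟨w, hw⟩ := IsAlgClosed.exists_pow_nat_eq (i u) hM
  let b := Module.finBasis ℚ L
  let s : Set Ω := Set.range (fun k => i (b k)) ∪ {ζ, w}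
  have : Finite s := by
    rw [Set.finite_coe_iff]
    exact (Set.finite_range _).union (by simp)
  let N := FiniteGaloisIntermediateField.adjoin ℚ s
  have hs : s ⊆ N.toIntermediateField := FiniteGaloisIntermediateField.subset_adjoin ℚ s
  have hi : ∀ x : L, i x ∈ N.toIntermediateField := by
    intro x
    rw [← b.sum_repr x, map_sum]
    refine sum_mem fun k _ => ?_
    rw [AlgHom.map_smul_of_tower]
    exact N.toIntermediateField.smul_mem (hs (Or.inl ⟨k, rfl⟩))
  let j : L →+* N.toIntermediateField :=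
    (i : L →+* Ω).codRestrict N.toIntermediateField.toSubfield hi
  have : NumberField N.toIntermediateField :=
    { to_charZero := inferInstance
      to_finiteDimensional := N.finiteDimensional }
  refine ⟨N.toIntermediateField, inferInstance, inferInstance, N.isGalois, j.toAlgebra,
    ⟨ζ, hs (Or.inr (by simp))⟩, ⟨w, hs (Or.inr (by simp))⟩, ?_, ?_⟩
  · refine IsPrimitiveRoot.of_map_of_injective (f := N.toIntermediateField.val) ?_
      (RingHom.injective _)
    exact hζ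
  · apply Subtype.ext
    exact hw

theorem exists_field (L : Type) [Field L] [NumberField L] (M : ℕ) (hM : 0 < M) (u : L) :
    ∃ (N : Type) (_ : Field N) (_ : NumberField N) (_ : IsGalois ℚ N) (_ : Algebra L N),
      ∃ ζ w : N, IsPrimitiveRoot ζ M ∧ w ^ M = algebraMap L N u := by
  have : IsGalois ℚ (AlgebraicClosure ℚ) := by
    have h1 : @IsAlgClosure ℚ (AlgebraicClosure ℚ) _ _ (AlgebraicClosure.instAlgebra ℚ) _ :=
      inferInstance
    have h2 := @IsAlgClosure.isGalois ℚ (AlgebraicClosure ℚ) _ _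
      (AlgebraicClosure.instAlgebra ℚ) h1 _
    have h3 : (DivisionRing.toRatAlgebra : Algebra ℚ (AlgebraicClosure ℚ)) =
      AlgebraicClosure.instAlgebra ℚ := Subsingleton.elim _ _
    rw [h3]
    exact h2
  exact exists_field_aux (AlgebraicClosure ℚ) L M hM u

/-- the core: Kummer extensions and Frobenius elements -/
theorem kummer (L N : Type) [Field L] [NumberField L] [Field N] [NumberField N] [IsGalois ℚ N]
    [Algebra L N] (M : ℕ) (hM : 0 < M) (ζ w : N) (hζ : IsPrimitiveRoot ζ M) (u : (𝓞 L)ˣ)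
    (hw : w ^ M = algebraMap L N (u : 𝓞 L)) (hw2 : w ∉ IntermediateField.adjoin L {ζ}) :
    ∃ p : ℕ, p.Prime ∧ ∀ v : 𝓞 L, ¬ ((p : 𝓞 L) ∣ (u : 𝓞 L) - v ^ M) := by
  have : NeZero M := ⟨hM.ne'⟩
  have : IsGalois L N := IsGalois.tower_top_of_isGalois ℚ L N
  have hg : ∃ g : Gal(N/ℚ), (∀ x : L, g (algebraMap L N x) = algebraMap L N x) ∧ g ζ = ζ ∧
      g w ≠ w := by
    have h1 : w ∉ (⊥ : IntermediateField (IntermediateField.adjoin L {ζ}) N) := by
      rw [IntermediateField.mem_bot]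
      rintro ⟨y, hy⟩
      apply hw2
      rw [← hy]
      exact y.2
    rw [IsGalois.mem_bot_iff_fixed] at h1
    push Not at h1
    obtain ⟨g, hg⟩ := h1
    refine ⟨(g.restrictScalars L).restrictScalars ℚ, ?_, ?_, hg⟩
    · intro x
      exact (g.restrictScalars L).commutes x
    · exact g.commutes ⟨ζ, IntermediateField.mem_adjoin_simple_self L ζ⟩
  obtain ⟨g, hg1, hg2, hg3⟩ := hg
  obtain ⟨p, hp, φ, hpM, hφ⟩ := exists_frob N g M
  refine ⟨p, hp.out, ?_⟩
  rintro v ⟨d, hd⟩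
  -- the integral elements
  have hζi : IsIntegral ℤ ζ := hζ.isIntegral hM
  have hwi : IsIntegral ℤ w := by
    refine IsIntegral.of_pow hM ?_
    rw [hw]
    exact (RingOfIntegers.isIntegral_coe (u : 𝓞 L)).map
      ((algebraMap L N).toIntAlgHom)
  let Z : 𝓞 N := ⟨ζ, hζi⟩
  let W : 𝓞 N := ⟨w, hwi⟩
  have hZ : IsPrimitiveRoot Z M := by
    refine IsPrimitiveRoot.of_map_of_injective (f := algebraMap (𝓞 N) N) ?_
      RingOfIntegers.coe_injective
    exact hζ
  let k := AlgebraicClosure (ZMod p)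
  have : CharP k p := charP_of_injective_algebraMap (algebraMap (ZMod p) k).injective p
  have : NeZero (M : k) := by
    refine ⟨fun h => ?_⟩
    rw [CharP.cast_eq_zero_iff k p] at h
    exact absurd (Nat.le_of_dvd hM h) (not_le.2 hpM)
  have hφZ : IsPrimitiveRoot (φ Z) M := by
    have h1 : (Polynomial.cyclotomic M (𝓞 N)).IsRoot Z := by
      have : NeZero ((M : 𝓞 N)) := NeZero.natCast_ne M (𝓞 N) |> fun h => ⟨h⟩
      exact (Polynomial.isRoot_cyclotomic_iff).2 hZ
    have h2 : (Polynomial.cyclotomic M k).IsRoot (φ Z) := by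
      rw [← Polynomial.map_cyclotomic M φ]
      exact h1.map
    exact (Polynomial.isRoot_cyclotomic_iff).1 h2
  let ι : 𝓞 L →+* 𝓞 N := algebraMap (𝓞 L) (𝓞 N)
  have hι : ∀ x : 𝓞 L, ((ι x : 𝓞 N) : N) = algebraMap L N x := fun x => rfl
  have hgι : ∀ x : 𝓞 L, g • ι x = ι x := by
    intro x
    apply RingOfIntegers.ext
    exact hg1 x
  have hgZ : g • Z = Z := by
    apply RingOfIntegers.ext
    exact hg2
  have hWu : W ^ M = ι u := by
    apply RingOfIntegers.ext
    rw [hι]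
    exact hw
  have hφu : φ (ι u) ≠ 0 := ((u.isUnit.map ι).map φ).ne_zero
  have h1 : φ W ^ M = φ (ι v) ^ M := by
    rw [← map_pow, hWu, ← map_pow, ← map_pow, ← sub_eq_zero, ← map_sub, ← map_sub, hd, map_mul,
      map_mul, map_natCast, map_natCast, CharP.cast_eq_zero, zero_mul]
  have hφW : φ W ≠ 0 := by
    intro h
    apply hφu
    rw [← hWu, map_pow, h, zero_pow hM.ne']
  have hφv : φ (ι v) ≠ 0 := by
    intro h
    rw [h, zero_pow hM.ne'] at h1
    exact hφW (pow_eq_zero_iff hM.ne' |>.1 h1)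
  obtain ⟨a, -, ha⟩ : ∃ a < M, φ Z ^ a = φ W / φ (ι v) := by
    refine hφZ.eq_pow_of_pow_eq_one ?_
    rw [div_pow, h1, div_self (pow_ne_zero _ hφv)]
  have h2 : φ W = φ (Z ^ a * ι v) := by
    rw [map_mul, map_pow, ha, div_mul_cancel₀ _ hφv]
  have h3 : φ W ^ p = φ W := by
    rw [h2, ← hφ, smul_mul', hgι, smul_pow', hgZ]
  obtain ⟨b, -, hb⟩ : ∃ b < M, Z ^ b * W = g • W := by
    have hW0 : w ≠ 0 := by
      intro h
      apply hφW
      have : W = 0 := RingOfIntegers.ext h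
      rw [this, map_zero]
    obtain ⟨b, hb1, hb2⟩ : ∃ b < M, ζ ^ b = g w / w := by
      refine hζ.eq_pow_of_pow_eq_one ?_
      rw [div_pow, ← map_pow, hw, hg1, ← hw, div_self (pow_ne_zero _ hW0)]
    refine ⟨b, hb1, ?_⟩
    apply RingOfIntegers.ext
    change ζ ^ b * w = g w
    rw [hb2, div_mul_cancel₀ _ hW0]
  have h4 : φ Z ^ b * φ W = φ W := by
    rw [← map_pow, ← map_mul, hb, hφ, h3]
  have h5 : φ Z ^ b = 1 := by
    have := mul_right_cancel₀ hφW (h4.trans (one_mul (φ W)).symm)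
    exact this
  have h6 : M ∣ b := (hφZ.pow_eq_one_iff_dvd b).1 h5
  apply hg3
  have h7 : Z ^ b = 1 := (hZ.pow_eq_one_iff_dvd b).2 h6
  rw [h7, one_mul] at hb
  exact (congrArg (fun x : 𝓞 N => (x : N)) hb).symm

end Pool.Agent.H4.CS
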