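import Mathlib
import Pool.Agent.H4.CS.Kum

/-!
# Chevalley's theorem for the units of a number field
-/

set_option autoImplicit false

namespace Pool.Agent.H4.CS

open NumberField IntermediateField

/-- Kummer descent from the `ℓ^k`-th cyclotomic extension -/
theorem descent (L N : Type) [Field L] [Field N] [Algebra L N] [FiniteDimensional L N]
    [IsGalois L N] (l k c : ℕ) (hl : l.Prime) (hk : c + 1 ≤ k) (ζ w : N)
    (hζ : IsPrimitiveRoot ζ (l ^ k)) (hc : ∀ x : L, ¬ IsPrimitiveRoot x (l ^ (c + 1)))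
    (u : L) (hu : u ≠ 0) (hw : w ^ (l ^ k) = algebraMap L N u)
    (hw2 : w ∈ IntermediateField.adjoin L {ζ}) : ∃ z : L, z ^ (l ^ k) = u ^ (l ^ c) := by
  have hlk : 0 < l ^ k := pow_pos hl.pos _
  have : NeZero (l ^ k) := ⟨hlk.ne'⟩
  have hw0 : w ≠ 0 := by
    rintro rfl
    rw [zero_pow hlk.ne'] at hw
    exact hu ((map_eq_zero (algebraMap L N)).1 hw.symm)
  have hζ0 : ζ ≠ 0 := hζ.ne_zero hlk.ne'
  -- the action of the Galois group
  have hact : ∀ g : Gal(N/L), ∃ s : ℕ, g ζ = ζ ^ s := by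
    intro g
    obtain ⟨s, -, hs⟩ := hζ.eq_pow_of_pow_eq_one (ξ := g ζ) (by
      rw [← map_pow, hζ.pow_eq_one, map_one])
    exact ⟨s, hs.symm⟩
  have hcomm : ∀ (g h : Gal(N/L)) (x : N), x ∈ IntermediateField.adjoin L {ζ} →
      g (h x) = h (g x) := by
    intro g h x hx
    induction hx using IntermediateField.adjoin_induction with
    | mem x hx =>
      rw [Set.mem_singleton_iff] at hx
      subst hx
      obtain ⟨s, hs⟩ := hact g
      obtain ⟨t, ht⟩ := hact h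
      rw [hs, ht, map_pow, map_pow, hs, ht, ← pow_mul, ← pow_mul, mul_comm]
    | algebraMap x => simp
    | add x y _ _ hx hy => rw [map_add, map_add, map_add, map_add, hx, hy]
    | inv x _ hx => rw [map_inv₀, map_inv₀, map_inv₀, map_inv₀, hx]
    | mul x y _ _ hx hy => rw [map_mul, map_mul, map_mul, map_mul, hx, hy]
  -- an element moving the `ℓ^(c+1)`-th roots of unity
  have hsig : ∃ g : Gal(N/L), ∃ s : ℕ, g ζ = ζ ^ s ∧ ¬ ((l ^ (c + 1) : ℕ) : ℤ) ∣ (s : ℤ) - 1 := by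
    have hζ' : IsPrimitiveRoot (ζ ^ (l ^ (k - (c + 1)))) (l ^ (c + 1)) := by
      refine hζ.pow hlk ?_
      rw [← pow_add]
      congr 1
      omega
    have h1 : ζ ^ (l ^ (k - (c + 1))) ∉ (⊥ : IntermediateField L N) := by
      rw [IntermediateField.mem_bot]
      rintro ⟨x, hx⟩
      apply hc x
      refine IsPrimitiveRoot.of_map_of_injective (f := algebraMap L N) ?_
        (algebraMap L N).injective
      rw [hx]
      exact hζ'
    rw [IsGalois.mem_bot_iff_fixed] at h1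
    push Not at h1
    obtain ⟨g, hg⟩ := h1
    obtain ⟨s, hs⟩ := hact g
    refine ⟨g, s, hs, ?_⟩
    intro h2
    apply hg
    have h3 : (ζ ^ (l ^ (k - (c + 1)))) ^ ((s : ℤ) - 1) = 1 :=
      (hζ'.zpow_eq_one_iff_dvd _).2 h2
    rw [zpow_sub₀ (pow_ne_zero _ hζ0), zpow_one, zpow_natCast,
      div_eq_one_iff_eq (pow_ne_zero _ hζ0)] at h3
    rw [map_pow, hs, ← pow_mul, mul_comm, pow_mul]
    exact h3
  obtain ⟨g, s, hs, hs2⟩ := hsig
  have hgw : g w ≠ 0 := by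
    rw [Ne, map_eq_zero]
    exact hw0
  have hfix : w ^ s / g w ∈ (⊥ : IntermediateField L N) := by
    rw [IsGalois.mem_bot_iff_fixed]
    intro h
    obtain ⟨b, -, hb⟩ := hζ.eq_pow_of_pow_eq_one (ξ := h w / w) (by
      rw [div_pow, ← map_pow, hw, AlgEquiv.commutes, ← hw, div_self (pow_ne_zero _ hw0)])
    have hb' : h w = ζ ^ b * w := by
      rw [hb, div_mul_cancel₀ _ hw0]
    rw [map_div₀, map_pow, ← hcomm g h w hw2, hb', map_mul, map_pow, hs, mul_pow, ← pow_mul,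
      ← pow_mul, mul_comm b s, mul_div_mul_left _ _ (pow_ne_zero _ hζ0)]
  rw [IntermediateField.mem_bot] at hfix
  obtain ⟨w1, hw1⟩ := hfix
  have hw1' : w1 ^ (l ^ k) = u ^ ((s : ℤ) - 1) := by
    apply (algebraMap L N).injective
    rw [map_pow, hw1, div_pow, ← map_pow, hw, AlgEquiv.commutes, ← pow_mul, mul_comm s, pow_mul,
      hw, map_zpow₀, zpow_sub₀, zpow_one, zpow_natCast]
    rwa [Ne, map_eq_zero]
  have hw10 : w1 ≠ 0 := by
    rintro rfl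
    rw [zero_pow hlk.ne'] at hw1'
    exact (zpow_ne_zero _ hu) hw1'.symm
  have hgcd : Int.gcd ((s : ℤ) - 1) ((l ^ k : ℕ) : ℤ) ∣ l ^ c := by
    have h1 : Int.gcd ((s : ℤ) - 1) ((l ^ k : ℕ) : ℤ) ∣ l ^ k := by
      have := Int.gcd_dvd_right ((s : ℤ) - 1) ((l ^ k : ℕ) : ℤ)
      exact_mod_cast this
    obtain ⟨j, hj1, hj2⟩ := (Nat.dvd_prime_pow hl).1 h1
    rw [hj2]
    apply pow_dvd_pow
    by_contra hj3
    push Not at hj3
    apply hs2
    have h2 := Int.gcd_dvd_left ((s : ℤ) - 1) ((l ^ k : ℕ) : ℤ)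
    rw [hj2] at h2
    refine dvd_trans ?_ h2
    rw [Int.natCast_dvd_natCast]
    exact pow_dvd_pow l hj3
  rw [Int.gcd_dvd_iff] at hgcd
  obtain ⟨x, y, hxy⟩ := hgcd
  refine ⟨w1 ^ x * u ^ y, ?_⟩
  have h1 : (w1 ^ x) ^ (l ^ k) = u ^ (((s : ℤ) - 1) * x) := by
    rw [← zpow_natCast, ← zpow_mul, mul_comm, zpow_mul, zpow_natCast, hw1', ← zpow_mul]
  have h2 : (u ^ y) ^ (l ^ k) = u ^ (((l ^ k : ℕ) : ℤ) * y) := by
    rw [← zpow_natCast, ← zpow_mul, mul_comm]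
  rw [mul_pow, h1, h2, ← zpow_add₀ hu, ← hxy, zpow_natCast]

/-- a unit that is an `ℓ^k`-th power modulo all primes is almost an `ℓ^k`-th power -/
theorem unit_power (L : Type) [Field L] [NumberField L] (l k c : ℕ) (hl : l.Prime)
    (hk : c + 1 ≤ k) (hc : ∀ x : L, ¬ IsPrimitiveRoot x (l ^ (c + 1))) (u : (𝓞 L)ˣ)
    (hu : ∀ p : ℕ, p.Prime → ∃ v : 𝓞 L, (p : 𝓞 L) ∣ (u : 𝓞 L) - v ^ (l ^ k)) :
    ∃ z : (𝓞 L)ˣ, z ^ (l ^ k) = u ^ (l ^ c) := by
  have hlk : 0 < l ^ k := pow_pos hl.pos _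
  obtain ⟨N, _, _, _, _, ζ, w, hζ, hw⟩ := exists_field L (l ^ k) hlk (u : 𝓞 L)
  have : IsGalois L N := IsGalois.tower_top_of_isGalois ℚ L N
  have : FiniteDimensional L N := FiniteDimensional.right ℚ L N
  have hw2 : w ∈ IntermediateField.adjoin L {ζ} := by
    by_contra h
    obtain ⟨p, hp, h1⟩ := kummer L N (l ^ k) hlk ζ w hζ u hw h
    obtain ⟨v, hv⟩ := hu p hp
    exact h1 v hv
  have hu0 : ((u : 𝓞 L) : L) ≠ 0 := by
    rw [Ne, RingOfIntegers.coe_eq_zero_iff]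
    exact u.ne_zero
  obtain ⟨z, hz⟩ := descent L N l k c hl hk ζ w hζ hc (u : 𝓞 L) hu0 hw hw2
  have hz1 : IsIntegral ℤ z := by
    refine IsIntegral.of_pow hlk ?_
    rw [hz]
    exact (RingOfIntegers.isIntegral_coe (u : 𝓞 L)).pow _
  let Z : 𝓞 L := ⟨z, hz1⟩
  have hZ : Z ^ (l ^ k) = (u : 𝓞 L) ^ (l ^ c) := RingOfIntegers.ext hz
  have hZu : IsUnit Z := by
    rw [← isUnit_pow_iff hlk.ne', hZ]
    exact u.isUnit.pow _
  refine ⟨hZu.unit, ?_⟩
  apply Units.ext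
  rw [Units.val_pow_eq_pow_val, Units.val_pow_eq_pow_val, IsUnit.unit_spec, hZ]

/-- a natural prime is not a unit in the ring of integers -/
theorem prime_not_dvd_one (L : Type) [Field L] [NumberField L] (p : ℕ) (hp : p.Prime) :
    ¬ (p : 𝓞 L) ∣ 1 := by
  intro h
  have h1 : IsUnit (p : 𝓞 L) := isUnit_of_dvd_one h
  have h2 : IsUnit (Algebra.norm ℤ (p : 𝓞 L)) := h1.map _
  rw [Algebra.norm_natCast, isUnit_pow_iff Module.finrank_pos.ne'] at h2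
  exact (Nat.prime_iff_prime_int.1 hp).not_isUnit h2

theorem root_eq_one (L : Type) [Field L] [NumberField L] (l p c : ℕ) (hl : l.Prime)
    (hp : p.Prime) (hlp : p ≠ l) (η : 𝓞 L) (hη : η ^ (l ^ c) = 1) (h : (p : 𝓞 L) ∣ η - 1) :
    η = 1 := by
  induction c generalizing η with
  | zero => simpa using hη
  | succ c ih =>
    have h1 : η ^ l = 1 := by
      apply ih
      · rw [← pow_mul, ← pow_succ']
        exact hη
      · exact h.trans (sub_one_dvd_pow_sub_one η l)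
    by_contra hne
    have h2 : ∑ i ∈ Finset.range l, η ^ i = 0 := by
      have h3 := geom_sum_mul η l
      rw [h1, sub_self] at h3
      rcases mul_eq_zero.1 h3 with h4 | h4
      · exact h4
      · exact absurd (sub_eq_zero.1 h4) hne
    have h3 : (p : 𝓞 L) ∣ (l : 𝓞 L) := by
      have h4 : (p : 𝓞 L) ∣ ∑ i ∈ Finset.range l, (η ^ i - 1) :=
        Finset.dvd_sum fun i _ => h.trans (sub_one_dvd_pow_sub_one η i)
      rw [Finset.sum_sub_distrib, h2, zero_sub, dvd_neg] at h4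
      simpa using h4
    apply prime_not_dvd_one L p hp
    have h5 : IsCoprime (p : ℤ) (l : ℤ) := by
      rw [Nat.isCoprime_iff_coprime]
      exact (Nat.coprime_primes hp hl).2 hlp
    obtain ⟨a, b, hab⟩ := h5
    have h6 : (a : 𝓞 L) * p + b * l = 1 := by exact_mod_cast congrArg (Int.cast : ℤ → 𝓞 L) hab
    rw [← h6]
    exact dvd_add (Dvd.intro_left _ rfl) (h3.mul_left _)

/-- a congruence gives exponents modulo `p` -/
theorem exists_exponent (L : Type) [Field L] [NumberField L] (p : ℕ) (hp : p ≠ 0) :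
    ∃ X : ℕ, 0 < X ∧ ∀ u : (𝓞 L)ˣ, (p : 𝓞 L) ∣ ((u ^ X : (𝓞 L)ˣ) : 𝓞 L) - 1 := by
  let I : Ideal (𝓞 L) := Ideal.span {(p : 𝓞 L)}
  have hI : I ≠ ⊥ := by
    intro h
    rw [Ideal.span_singleton_eq_bot] at h
    exact hp (by exact_mod_cast h)
  have : Finite (𝓞 L ⧸ I) := Ideal.finiteQuotientOfFreeOfNeBot I hI
  refine ⟨Nat.card (𝓞 L ⧸ I)ˣ, Nat.card_pos, ?_⟩
  intro u
  rw [← Ideal.mem_span_singleton]
  change _ ∈ I
  rw [← Ideal.Quotient.eq_zero_iff_mem, map_sub, map_one, sub_eq_zero]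
  have h1 : (Units.map (Ideal.Quotient.mk I : 𝓞 L →* 𝓞 L ⧸ I) u) ^ Nat.card (𝓞 L ⧸ I)ˣ = 1 :=
    pow_card_eq_one'
  have h2 := congrArg Units.val h1
  rw [← map_pow] at h2
  exact h2

/-- Chevalley's theorem for units, prime powers -/
theorem chevalley_prime_pow (L : Type) [Field L] [NumberField L] (l k0 : ℕ) (hl : l.Prime) :
    ∃ m : ℕ, m ≠ 0 ∧ ∀ u : (𝓞 L)ˣ, (m : 𝓞 L) ∣ (u : 𝓞 L) - 1 → ∃ v : (𝓞 L)ˣ,
      v ^ (l ^ k0) = u := by
  classical
  obtain ⟨c, hc⟩ : ∃ c : ℕ, ∀ x : L, ¬ IsPrimitiveRoot x (l ^ (c + 1)) := by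
    refine ⟨Units.torsionOrder L, fun x hx => ?_⟩
    have : NeZero (l ^ (Units.torsionOrder L + 1)) := ⟨(pow_pos hl.pos _).ne'⟩
    have h1 := Units.dvd_torsionOrder_of_isPrimitiveRoot hx
    have h2 := Nat.le_of_dvd (Units.torsionOrder_pos L) h1
    have h3 : Units.torsionOrder L + 1 < l ^ (Units.torsionOrder L + 1) :=
      Nat.lt_pow_self hl.one_lt
    omega
  obtain ⟨p0, hp0, hp0l⟩ : ∃ p : ℕ, p.Prime ∧ p ≠ l := by
    by_cases h : l = 2
    · exact ⟨3, Nat.prime_three, by omega⟩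
    · exact ⟨2, Nat.prime_two, Ne.symm h⟩
  obtain ⟨X, hX, hX2⟩ := exists_exponent L p0 hp0.ne_zero
  obtain ⟨s, X', hX'l, hXX⟩ := Nat.exists_eq_pow_mul_and_not_dvd hX.ne' l hl.ne_one
  set k := c + 1 + s + k0 with hk
  -- the bad classes
  let Q := (𝓞 L)ˣ ⧸ (powMonoidHom (l ^ k) : (𝓞 L)ˣ →* (𝓞 L)ˣ).range
  have hQ : Finite Q := by
    have : Group.FG (𝓞 L)ˣ := Group.fg_iff_monoid_fg.2 inferInstance
    have : Group.FG Q := QuotientGroup.fg _
    refine CommGroup.finite_of_fg_isMulTorsion Q ?_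
    intro q
    induction q using QuotientGroup.induction_on with
    | H x =>
      rw [isOfFinOrder_iff_pow_eq_one]
      refine ⟨l ^ k, pow_pos hl.pos _, ?_⟩
      rw [← QuotientGroup.mk_pow, QuotientGroup.eq_one_iff]
      exact ⟨x, rfl⟩
  have : Fintype Q := Fintype.ofFinite Q
  let Pq : Q → ℕ → Prop := fun q p =>
    p.Prime ∧ ∀ v : 𝓞 L, ¬ (p : 𝓞 L) ∣ ((q.out : (𝓞 L)ˣ) : 𝓞 L) - v ^ (l ^ k)
  let f : Q → ℕ := fun q => if h : ∃ p, Pq q p then h.choose else 1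
  have hf0 : ∀ q, f q ≠ 0 := by
    intro q
    by_cases h : ∃ p, Pq q p
    · simp only [f, dif_pos h]
      exact h.choose_spec.1.ne_zero
    · simp only [f, dif_neg h]
      exact one_ne_zero
  refine ⟨p0 * ∏ q, f q, mul_ne_zero hp0.ne_zero (Finset.prod_ne_zero_iff.2 fun q _ => hf0 q),
    ?_⟩
  intro u hu
  have hup0 : (p0 : 𝓞 L) ∣ (u : 𝓞 L) - 1 := by
    refine dvd_trans ?_ hu
    push_cast
    exact Dvd.intro _ rfl
  have huf : ∀ q, (f q : 𝓞 L) ∣ (u : 𝓞 L) - 1 := by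
    intro q
    refine dvd_trans ?_ hu
    have : f q ∣ p0 * ∏ q, f q := (Finset.dvd_prod_of_mem f (Finset.mem_univ q)).mul_left _
    exact_mod_cast Nat.cast_dvd_cast (α := 𝓞 L) this
  let q : Q := QuotientGroup.mk u
  obtain ⟨y, hy⟩ : ∃ y : (𝓞 L)ˣ, u = q.out * y ^ (l ^ k) := by
    have h1 : (QuotientGroup.mk q.out : Q) = QuotientGroup.mk u := QuotientGroup.out_eq' q
    rw [QuotientGroup.eq] at h1
    obtain ⟨y, hy⟩ := h1
    refine ⟨y, ?_⟩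
    have hy' : y ^ (l ^ k) = q.out⁻¹ * u := hy
    rw [hy', mul_inv_cancel_left]
  have h1 : ∀ p : ℕ, p.Prime →
      ∃ v : 𝓞 L, (p : 𝓞 L) ∣ ((q.out : (𝓞 L)ˣ) : 𝓞 L) - v ^ (l ^ k) := by
    intro p hp
    by_contra hne
    push Not at hne
    have h2 : ∃ p, Pq q p := ⟨p, hp, hne⟩
    have h3 : f q = h2.choose := by simp only [f, dif_pos h2]
    have h4 := h2.choose_spec
    rw [← h3] at h4
    apply h4.2 ((y⁻¹ : (𝓞 L)ˣ) : 𝓞 L)
    have h5 : ((q.out : (𝓞 L)ˣ) : 𝓞 L) =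
        (u : 𝓞 L) * ((y⁻¹ : (𝓞 L)ˣ) : 𝓞 L) ^ (l ^ k) := by
      rw [← Units.val_pow_eq_pow_val, ← Units.val_mul]
      congr 1
      conv_rhs => rw [hy]
      rw [inv_pow, mul_inv_cancel_right]
    rw [h5]
    have h6 : (u : 𝓞 L) * ((y⁻¹ : (𝓞 L)ˣ) : 𝓞 L) ^ (l ^ k) -
        ((y⁻¹ : (𝓞 L)ˣ) : 𝓞 L) ^ (l ^ k) =
        ((u : 𝓞 L) - 1) * ((y⁻¹ : (𝓞 L)ˣ) : 𝓞 L) ^ (l ^ k) := by ring
    rw [h6]
    exact (huf q).mul_right _
  obtain ⟨z, hz⟩ := unit_power L l k c hl (by omega) hc q.out h1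
  have h2 : u ^ (l ^ c) = (z * y ^ (l ^ c)) ^ (l ^ k) := by
    rw [hy, mul_pow, mul_pow, hz, ← pow_mul, ← pow_mul, mul_comm (l ^ k)]
  generalize z * y ^ (l ^ c) = z' at h2
  have hkc : l ^ k = l ^ (1 + s + k0) * l ^ c := by
    rw [← pow_add]
    congr 1
    omega
  obtain ⟨η, hη⟩ : ∃ η : (𝓞 L)ˣ, η * z' ^ (l ^ (1 + s + k0)) = u :=
    ⟨u * (z' ^ (l ^ (1 + s + k0)))⁻¹, inv_mul_cancel_right _ _⟩
  have hη1 : η ^ (l ^ c) = 1 := by
    have h3 : η ^ (l ^ c) * z' ^ (l ^ k) = u ^ (l ^ c) := by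
      rw [← hη, mul_pow, hkc, pow_mul]
    rw [h2] at h3
    exact mul_eq_right.1 h3
  have hη2 : (p0 : 𝓞 L) ∣ ((η ^ X' : (𝓞 L)ˣ) : 𝓞 L) - 1 := by
    have h3 : η ^ X' * (z' ^ (l ^ (1 + k0))) ^ X = u ^ X' := by
      rw [← hη, mul_pow, ← pow_mul, ← pow_mul, hXX]
      congr 2
      ring
    have h4 := hX2 (z' ^ (l ^ (1 + k0)))
    have h5 : (p0 : 𝓞 L) ∣ ((u ^ X' : (𝓞 L)ˣ) : 𝓞 L) - 1 := by
      rw [Units.val_pow_eq_pow_val]
      exact hup0.trans (sub_one_dvd_pow_sub_one _ _)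
    rw [← h3, Units.val_mul] at h5
    have h6 := dvd_sub h5 (h4.mul_left ((η ^ X' : (𝓞 L)ˣ) : 𝓞 L))
    convert h6 using 1
    ring
  have hη3 : η ^ X' = 1 := by
    apply Units.ext
    refine root_eq_one L l p0 c hl hp0 hp0l _ ?_ hη2
    rw [← Units.val_pow_eq_pow_val, ← pow_mul, mul_comm, pow_mul, hη1, one_pow, Units.val_one]
  have hη4 : η = 1 := by
    rw [← orderOf_eq_one_iff]
    have hcop : Nat.Coprime (l ^ c) X' :=
      Nat.Coprime.pow_left c ((Nat.Prime.coprime_iff_not_dvd hl).2 hX'l)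
    exact Nat.eq_one_of_dvd_coprimes hcop (orderOf_dvd_of_pow_eq_one hη1)
      (orderOf_dvd_of_pow_eq_one hη3)
  refine ⟨z' ^ (l ^ (1 + s)), ?_⟩
  rw [← pow_mul, ← pow_add, ← hη, hη4, one_mul]

/-- Chevalley's theorem for the units of a number field -/
theorem chevalley (L : Type) [Field L] [NumberField L] (e : ℕ) (he : e ≠ 0) :
    ∃ m : ℕ, m ≠ 0 ∧ ∀ u : (𝓞 L)ˣ, (m : 𝓞 L) ∣ (u : 𝓞 L) - 1 → ∃ v : (𝓞 L)ˣ, v ^ e = u := by
  induction e using Nat.recOnPrimeCoprime with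
  | zero => exact absurd rfl he
  | prime_pow p n hp => exact chevalley_prime_pow L p n hp
  | coprime a b ha hb hab iha ihb =>
    obtain ⟨m1, hm1, h1⟩ := iha (by omega)
    obtain ⟨m2, hm2, h2⟩ := ihb (by omega)
    refine ⟨m1 * m2, mul_ne_zero hm1 hm2, ?_⟩
    intro u hu
    push_cast at hu
    obtain ⟨x, hx⟩ := h1 u ((Dvd.intro _ rfl).trans hu)
    obtain ⟨y, hy⟩ := h2 u ((Dvd.intro_left _ rfl).trans hu)
    obtain ⟨α, β, hαβ⟩ := (Nat.isCoprime_iff_coprime.2 hab)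
    refine ⟨y ^ α * x ^ β, ?_⟩
    have h3 : (y ^ α * x ^ β) ^ (a * b) = (y ^ b) ^ (α * a) * (x ^ a) ^ (β * b) := by
      rw [mul_pow, ← zpow_natCast, ← zpow_natCast, ← zpow_natCast, ← zpow_natCast, ← zpow_mul,
        ← zpow_mul, ← zpow_mul, ← zpow_mul]
      congr 2
      · push_cast
        ring
      · push_cast
        ring
    rw [h3, hx, hy, ← zpow_add, hαβ, zpow_one]

end Pool.Agent.H4.CS
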