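import Mathlib
import Pool.Agent.H4.CS.Ext
import Pool.Agent.H4.CS.Red
import Pool.Agent.H4.CS.Unit

/-!
# The congruence subgroup property of commutative groups of integral matrices
-/

set_option autoImplicit false

namespace Pool.Agent.H4.CS

open NumberField

section ring

variable {R M : Type} [CommRing R] [CommGroup M]

/-- the congruence subgroup of an ideal -/
def cong (τ : M →* R) (I : Ideal R) : Subgroup M where
  carrier := {t | τ t - 1 ∈ I}
  one_mem' := by simp
  mul_mem' := by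
    intro a b ha hb
    have h : τ (a * b) - 1 = τ a * (τ b - 1) + (τ a - 1) := by
      rw [map_mul]
      ring
    change τ (a * b) - 1 ∈ I
    rw [h]
    exact I.add_mem (I.mul_mem_left _ hb) ha
  inv_mem' := by
    intro a ha
    have h : τ a⁻¹ - 1 = -(τ a⁻¹ * (τ a - 1)) := by
      have : τ a⁻¹ * τ a = 1 := by rw [← map_mul, inv_mul_cancel, map_one]
      rw [mul_sub, this]
      ring
    change τ a⁻¹ - 1 ∈ I
    rw [h]
    exact I.neg_mem (I.mul_mem_left _ ha)

theorem mem_cong {τ : M →* R} {I : Ideal R} {t : M} : t ∈ cong τ I ↔ τ t - 1 ∈ I := Iff.rfl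

theorem cong_mono (τ : M →* R) {I J : Ideal R} (h : I ≤ J) : cong τ I ≤ cong τ J :=
  fun _ ht => h ht

/-- the congruence subgroups -/
def Ga (τ : M →* R) (m : ℕ) : Subgroup M := cong τ (Ideal.span {(m : R)})

theorem mem_Ga {τ : M →* R} {m : ℕ} {t : M} : t ∈ Ga τ m ↔ (m : R) ∣ τ t - 1 :=
  mem_cong.trans Ideal.mem_span_singleton

theorem Ga_mul (τ : M →* R) (a b : ℕ) : Ga τ (a * b) ≤ Ga τ a ⊓ Ga τ b := by
  intro t ht
  rw [mem_Ga] at ht
  rw [Subgroup.mem_inf, mem_Ga, mem_Ga]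
  push_cast at ht
  exact ⟨(Dvd.intro _ rfl).trans ht, (Dvd.intro_left _ rfl).trans ht⟩

theorem Ga_exp [Module.Finite ℤ R] (τ : M →* R) (m : ℕ) (hm : m ≠ 0) :
    ∃ E : ℕ, E ≠ 0 ∧ ∀ x : M, x ^ E ∈ Ga τ m := by
  let I : Ideal R := Ideal.span {(m : R)}
  have h1 : Module.IsTorsion ℤ (R ⧸ I) := by
    intro x
    refine ⟨⟨(m : ℤ), mem_nonZeroDivisors_of_ne_zero (by exact_mod_cast hm)⟩, ?_⟩
    obtain ⟨x, rfl⟩ := Ideal.Quotient.mk_surjective x
    rw [Submonoid.mk_smul, natCast_zsmul, nsmul_eq_mul, ← map_natCast (Ideal.Quotient.mk I),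
      ← map_mul, Ideal.Quotient.eq_zero_iff_mem]
    exact I.mul_mem_right _ (Ideal.mem_span_singleton_self _)
  have : Module.Finite ℤ (R ⧸ I) :=
    Module.Finite.of_surjective (Ideal.Quotient.mk I).toAddMonoidHom.toIntLinearMap
      Ideal.Quotient.mk_surjective
  have : Finite (R ⧸ I) := Module.finite_of_fg_torsion _ h1
  refine ⟨Nat.card (R ⧸ I)ˣ, Nat.card_pos.ne', ?_⟩
  intro x
  change τ (x ^ _) - 1 ∈ I
  rw [← Ideal.Quotient.eq_zero_iff_mem, map_sub, map_one, sub_eq_zero]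
  have h2 : (((Ideal.Quotient.mk I : R →* R ⧸ I).comp τ).toHomUnits x) ^
      Nat.card (R ⧸ I)ˣ = 1 := pow_card_eq_one'
  rw [← map_pow] at h2
  exact congrArg Units.val h2

theorem fg_multiplicative (B : Type) [AddCommGroup B] [Module.Finite ℤ B] :
    Group.FG (Multiplicative B) := by
  have : AddGroup.FG B := Module.Finite.iff_addGroup_fg.1 inferInstance
  infer_instance

/-- the unipotent steps -/
theorem step [Module.Finite ℤ R] (τ : M →* R) (J : Ideal R) (j : ℕ) (hj : 1 ≤ j)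
    (h : PC (Ga τ) (cong τ (J ^ (j + 1)))) : PC (Ga τ) (cong τ (J ^ j)) := by
  have : Module.Finite ℤ (R ⧸ J ^ (j + 1)) :=
    Module.Finite.of_surjective (Ideal.Quotient.mk (J ^ (j + 1))).toAddMonoidHom.toIntLinearMap
      Ideal.Quotient.mk_surjective
  have := fg_multiplicative (R ⧸ J ^ (j + 1))
  let θ : cong τ (J ^ j) →* Multiplicative (R ⧸ J ^ (j + 1)) :=
    MonoidHom.mk' (fun x => Multiplicative.ofAdd (Ideal.Quotient.mk _ (τ x - 1))) (by
      intro x y
      rw [← ofAdd_add, ← map_add]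
      congr 1
      rw [Ideal.Quotient.mk_eq_mk_iff_sub_mem]
      have h1 : τ ((x * y : cong τ (J ^ j)) : M) - 1 - (τ x - 1 + (τ y - 1)) =
          (τ x - 1) * (τ y - 1) := by
        rw [Subgroup.coe_mul, map_mul]
        ring
      rw [h1]
      have h2 : (τ x - 1) * (τ y - 1) ∈ J ^ (j + j) := by
        rw [pow_add]
        exact Ideal.mul_mem_mul x.2 y.2
      exact Ideal.pow_le_pow_right (by omega) h2)
  refine ext (Ga τ) (Ga_mul τ) (Ga_exp τ) _ _ ?_ _ θ ?_ ?_ h
  · exact cong_mono τ (Ideal.pow_le_pow_right (by omega))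
  · intro x hx
    rw [mem_cong, ← Ideal.Quotient.eq_zero_iff_mem]
    exact congrArg Multiplicative.toAdd hx
  · intro k hk
    refine ⟨k, hk, ?_⟩
    intro x hx
    rw [mem_Ga] at hx
    obtain ⟨d, hd⟩ := hx
    refine ⟨Multiplicative.ofAdd (Ideal.Quotient.mk _ d), ?_⟩
    rw [← ofAdd_nsmul]
    refine congrArg Multiplicative.ofAdd ?_
    rw [hd, nsmul_eq_mul, map_mul, map_natCast]

theorem fg_pi {ι : Type} [Fintype ι] (G : ι → Type) [∀ i, CommGroup (G i)]
    (h : ∀ i, Group.FG (G i)) : Group.FG (∀ i, G i) := by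
  have h1 : ∀ i, Module.Finite ℤ (Additive (G i)) := fun i =>
    Module.Finite.iff_addGroup_fg.2 inferInstance
  have h2 : Module.Finite ℤ (∀ i, Additive (G i)) := inferInstance
  have h3 := fg_multiplicative (∀ i, Additive (G i))
  let f : Multiplicative (∀ i, Additive (G i)) →* (∀ i, G i) :=
    MonoidHom.mk' (fun x i => (Multiplicative.toAdd x i).toMul) (by
      intro x y
      rfl)
  exact Group.fg_of_surjective (f := f)
    (fun y => ⟨Multiplicative.ofAdd fun i => Additive.ofMul (y i), rfl⟩)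

/-- congruence subgroups of commutative groups of units of orders -/
theorem cc [Module.Finite ℤ R] [Module.IsTorsionFree ℤ R] (τ : M →* R)
    (hτ : Function.Injective τ) (e : ℕ) (he : e ≠ 0) :
    ∃ m : ℕ, m ≠ 0 ∧ ∀ t : M, (m : R) ∣ τ t - 1 → ∃ s : M, s ^ e = t := by
  have hN : IsNoetherianRing R := IsNoetherianRing.of_finite ℤ R
  set J := nilradical R with hJ
  obtain ⟨n, hn⟩ := IsNoetherianRing.isNilpotent_nilradical R
  have h0 : PC (Ga τ) (cong τ (J ^ (n + 1))) := by
    intro e he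
    refine ⟨1, one_ne_zero, ?_⟩
    intro x hx _
    have h1 : J ^ (n + 1) ≤ ⊥ := by
      rw [pow_succ, hJ, hn]
      simp
    have h2 : τ x - 1 ∈ (⊥ : Ideal R) := h1 hx
    have h3 : x = 1 := by
      apply hτ
      rw [map_one]
      exact sub_eq_zero.1 h2
    exact ⟨1, Subgroup.one_mem _, by rw [one_pow, h3]⟩
  have h1 : ∀ i ≤ n, PC (Ga τ) (cong τ (J ^ (n + 1 - i))) := by
    intro i hi
    induction i with
    | zero => exact h0
    | succ i ih =>
      apply step τ J _ (by omega)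
      have : n + 1 - (i + 1) + 1 = n + 1 - i := by omega
      rw [this]
      exact ih (by omega)
  have h2 := h1 n le_rfl
  have h3 : n + 1 - n = 1 := by omega
  rw [h3, pow_one] at h2
  obtain ⟨ι, _, K, _, _, f, hf⟩ := red R
  have : Group.FG (∀ i, (𝓞 (K i))ˣ) :=
    fg_pi (fun i => (𝓞 (K i))ˣ) fun i => Group.fg_iff_monoid_fg.2 inferInstance
  let θ0 : M →* (∀ i, (𝓞 (K i))ˣ) :=
    MonoidHom.pi fun i => (Units.map (f i : R →* 𝓞 (K i))).comp τ.toHomUnits
  have hθ0 : ∀ x i, ((θ0 x i : (𝓞 (K i))ˣ) : 𝓞 (K i)) = f i (τ x) := fun x i => rfl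
  have h4 : PC (Ga τ) ⊤ := by
    refine ext (Ga τ) (Ga_mul τ) (Ga_exp τ) _ _ le_top _ (θ0.comp (Subgroup.subtype ⊤)) ?_ ?_ h2
    · intro x hx
      rw [mem_cong, hJ, mem_nilradical]
      apply hf
      intro i
      rw [map_sub, map_one, ← hθ0, sub_eq_zero]
      have := congrFun hx i
      exact congrArg Units.val this
    · intro k hk
      choose m hm hm2 using fun i => chevalley (K i) k hk
      refine ⟨∏ i, m i, Finset.prod_ne_zero_iff.2 fun i _ => hm i, ?_⟩
      intro x hx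
      have h5 : ∀ i, ∃ v : (𝓞 (K i))ˣ, v ^ k = θ0 x i := by
        intro i
        apply hm2
        rw [hθ0]
        rw [mem_Ga] at hx
        have h6 := map_dvd (f i) hx
        rw [map_natCast, map_sub, map_one] at h6
        refine dvd_trans ?_ h6
        exact Nat.cast_dvd_cast (Finset.dvd_prod_of_mem m (Finset.mem_univ i))
      choose v hv using h5
      exact ⟨v, funext hv⟩
  obtain ⟨m, hm, h5⟩ := h4 e he
  refine ⟨m, hm, ?_⟩
  intro t ht
  obtain ⟨s, -, hs⟩ := h5 t (Subgroup.mem_top t) (mem_Ga.2 ht)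
  exact ⟨s, hs⟩

end ring

/-- the congruence subgroup property of commutative groups of integral matrices -/
theorem cc_end (V M : Type) [AddCommGroup V] [Module.Finite ℤ V] [Module.IsTorsionFree ℤ V]
    [CommGroup M] (ρ : M →* Module.End ℤ V) (hρ : Function.Injective ρ) (e : ℕ) (he : e ≠ 0) :
    ∃ m : ℕ, m ≠ 0 ∧ ∀ t : M, (∃ D : Module.End ℤ V, ρ t = 1 + (m : ℤ) • D) →
      ∃ s : M, s ^ e = t := by
  let S := Subring.centralizer (Set.range ρ)
  let R := Subring.center S
  have hF : Module.Free ℤ V := inferInstance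
  have hE : Module.Finite ℤ (Module.End ℤ V) := inferInstance
  have hT : ∀ (n : ℤ) (x : Module.End ℤ V), n ≠ 0 → n • x = 0 → x = 0 := by
    intro n x hn hx
    rcases smul_eq_zero.1 hx with h | h
    · exact absurd h hn
    · exact h
  let i0 : R →+ Module.End ℤ V := (S.subtype.comp R.subtype).toAddMonoidHom
  have hi0 : Function.Injective i0 := fun x y h => Subtype.ext (Subtype.ext h)
  have hR1 : Module.Finite ℤ R := Module.Finite.of_injective i0.toIntLinearMap hi0
  have hR2 : Module.IsTorsionFree ℤ R := by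
    have h1 : Module.IsTorsionFree ℤ (Module.End ℤ V) := inferInstance
    exact Function.Injective.moduleIsTorsionFree i0 hi0 (fun n x => map_zsmul i0 n x)
  have hS : ∀ t, ρ t ∈ S := by
    intro t
    rw [Subring.mem_centralizer_iff]
    rintro _ ⟨s, rfl⟩
    rw [← map_mul, ← map_mul, mul_comm]
  have hSR : ∀ t, (⟨ρ t, hS t⟩ : S) ∈ R := by
    intro t
    rw [Subring.mem_center_iff]
    intro y
    apply Subtype.ext
    have := Subring.mem_centralizer_iff.1 y.2 (ρ t) ⟨t, rfl⟩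
    exact this.symm
  let τ : M →* R :=
    { toFun := fun t => ⟨⟨ρ t, hS t⟩, hSR t⟩
      map_one' := Subtype.ext (Subtype.ext (map_one ρ))
      map_mul' := fun a b => Subtype.ext (Subtype.ext (map_mul ρ a b)) }
  have hτ : Function.Injective τ := by
    intro a b h
    apply hρ
    exact congrArg i0 h
  obtain ⟨m, hm, h1⟩ := cc τ hτ e he
  refine ⟨m, hm, ?_⟩
  rintro t ⟨D, hD⟩
  apply h1
  have hm' : (m : ℤ) ≠ 0 := by exact_mod_cast hm
  have hcom : ∀ y : Module.End ℤ V, y * ρ t = ρ t * y → y * D = D * y := by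
    intro y hy
    rw [← sub_eq_zero]
    apply hT (m : ℤ) _ hm'
    rw [hD] at hy
    rw [mul_add, add_mul, mul_one, one_mul, add_right_inj, mul_smul_comm, smul_mul_assoc] at hy
    rw [smul_sub, sub_eq_zero]
    exact hy
  have hDS : D ∈ S := by
    rw [Subring.mem_centralizer_iff]
    rintro _ ⟨s, rfl⟩
    apply hcom
    rw [← map_mul, ← map_mul, mul_comm]
  have hDR : (⟨D, hDS⟩ : S) ∈ R := by
    rw [Subring.mem_center_iff]
    intro y
    apply Subtype.ext
    apply hcom
    exact (Subring.mem_centralizer_iff.1 y.2 (ρ t) ⟨t, rfl⟩).symm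
  refine ⟨⟨⟨D, hDS⟩, hDR⟩, ?_⟩
  apply hi0
  change ρ t - 1 = _
  have h2 : i0 ((m : R) * ⟨⟨D, hDS⟩, hDR⟩) = (m : ℤ) • D := by
    rw [← nsmul_eq_mul, map_nsmul, natCast_zsmul]
    rfl
  rw [h2, hD]
  abel

end Pool.Agent.H4.CS
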