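import Mathlib

/-!
# Polynomial functions on groups

`P G R c` is the module of the functions `G → R` of degree less than `c`: all iterated differences
of order `c` vanish.  `CP G R c` is the submodule of the class functions.
-/

set_option autoImplicit false

namespace Pool.Agent.H4.CS

open Function

/-- the difference operator `f ↦ f (· * h) - f` -/
def dl (G R : Type) [Group G] [CommRing R] (h : G) : (G → R) →ₗ[R] (G → R) where
  toFun f x := f (x * h) - f x
  map_add' f g := by
    funext x
    simp only [Pi.add_apply]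
    ring
  map_smul' r f := by
    funext x
    simp only [Pi.smul_apply, smul_eq_mul, RingHom.id_apply]
    ring

/-- the functions of degree less than `c` -/
def P (G R : Type) [Group G] [CommRing R] : ℕ → Submodule R (G → R)
  | 0 => ⊥
  | c + 1 => ⨅ h : G, (P G R c).comap (dl G R h)

section basic

variable {G R : Type} [Group G] [CommRing R]

theorem dl_apply (h : G) (f : G → R) (x : G) : dl G R h f x = f (x * h) - f x := rfl

theorem mem_zero {f : G → R} : f ∈ P G R 0 ↔ f = 0 := by
  simp [P]

theorem mem_succ {c : ℕ} {f : G → R} : f ∈ P G R (c + 1) ↔ ∀ h : G, dl G R h f ∈ P G R c := by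
  simp [P]

theorem mono_succ (c : ℕ) : P G R c ≤ P G R (c + 1) := by
  induction c with
  | zero =>
    intro f hf
    rw [mem_zero.1 hf]
    exact Submodule.zero_mem _
  | succ c ih =>
    intro f hf
    rw [mem_succ] at hf ⊢
    exact fun h => ih (hf h)

theorem mono {c d : ℕ} (h : c ≤ d) : P G R c ≤ P G R d := by
  induction h with
  | refl => exact le_rfl
  | step _ ih => exact ih.trans (mono_succ _)

theorem comp_mem {H : Type} [Group H] (ψ : G →* H) (c : ℕ) (f : H → R) (hf : f ∈ P H R c) :
    (fun x => f (ψ x)) ∈ P G R c := by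
  induction c generalizing f with
  | zero =>
    rw [mem_zero] at hf ⊢
    subst hf
    rfl
  | succ c ih =>
    rw [mem_succ] at hf ⊢
    intro h
    have h1 := ih _ (hf (ψ h))
    have h2 : dl G R h (fun x => f (ψ x)) = fun x => dl H R (ψ h) f (ψ x) := by
      funext x
      simp [dl_apply]
    rw [h2]
    exact h1

theorem dl_mem {c : ℕ} {f : G → R} (hf : f ∈ P G R c) (h : G) : dl G R h f ∈ P G R c := by
  cases c with
  | zero =>
    rw [mem_zero.1 hf, map_zero]
    exact Submodule.zero_mem _
  | succ c => exact mono_succ c (mem_succ.1 hf h)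

theorem trans_mem {c : ℕ} {f : G → R} (hf : f ∈ P G R c) (h : G) :
    (fun x => f (x * h)) ∈ P G R c := by
  have h1 : (fun x => f (x * h)) = f + dl G R h f := by
    funext x
    simp [dl_apply]
  rw [h1]
  exact Submodule.add_mem _ hf (dl_mem hf h)

theorem one_mem' : (fun _ : G => (1 : R)) ∈ P G R 1 := by
  rw [mem_succ]
  intro h
  rw [mem_zero]
  funext x
  simp [dl_apply]

end basic

section int

variable {G : Type} [Group G]

theorem pure {c : ℕ} {m : ℤ} (hm : m ≠ 0) {f : G → ℤ} (hf : (fun x => m * f x) ∈ P G ℤ c) :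
    f ∈ P G ℤ c := by
  induction c generalizing f with
  | zero =>
    rw [mem_zero] at hf ⊢
    funext x
    have := congrFun hf x
    simp only [Pi.zero_apply, mul_eq_zero] at this ⊢
    tauto
  | succ c ih =>
    rw [mem_succ] at hf ⊢
    intro h
    apply ih
    have h1 : (fun x => m * dl G ℤ h f x) = dl G ℤ h (fun x => m * f x) := by
      funext x
      simp only [dl_apply]
      ring
    rw [h1]
    exact hf h

theorem reduce (m : ℕ) {c : ℕ} {f : G → ℤ} (hf : f ∈ P G ℤ c) :
    (fun x => (f x : ZMod m)) ∈ P G (ZMod m) c := by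
  induction c generalizing f with
  | zero =>
    rw [mem_zero] at hf ⊢
    subst hf
    funext x
    simp
  | succ c ih =>
    rw [mem_succ] at hf ⊢
    intro h
    have h1 : dl G (ZMod m) h (fun x => (f x : ZMod m)) =
        fun x => ((dl G ℤ h f x : ℤ) : ZMod m) := by
      funext x
      simp [dl_apply]
    rw [h1]
    exact ih (hf h)

end int

section fin

variable {G R : Type} [Group G] [CommRing R]

/-- a function of bounded degree is determined by its values on a finite set -/
theorem exists_finset [Group.FG G] (c : ℕ) :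
    ∃ W : Finset G, ∀ f ∈ P G R c, (∀ w ∈ W, f w = 0) → f = 0 := by
  classical
  obtain ⟨S, hS⟩ := (Group.fg_def.1 (inferInstance : Group.FG G))
  set T : Finset G := S ∪ S.image (fun x => x⁻¹) with hT
  have hcl : Submonoid.closure (T : Set G) = ⊤ := by
    have h1 := Subgroup.closure_toSubmonoid (S : Set G)
    rw [hS] at h1
    have h2 : (T : Set G) = (S : Set G) ∪ (S : Set G)⁻¹ := by
      ext x
      simp only [hT, Finset.coe_union, Finset.coe_image, Set.mem_union, Finset.mem_coe,
        Set.mem_image, Set.mem_inv]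
      constructor
      · rintro (h | ⟨y, hy, rfl⟩)
        · exact Or.inl h
        · right
          simpa using hy
      · rintro (h | h)
        · exact Or.inl h
        · exact Or.inr ⟨_, h, inv_inv x⟩
    rw [h2, ← h1]
    rfl
  induction c with
  | zero => exact ⟨∅, fun f hf _ => mem_zero.1 hf⟩
  | succ c ih =>
    obtain ⟨W, hW⟩ := ih
    refine ⟨insert 1 (W ∪ (W ×ˢ T).image fun p => p.1 * p.2), fun f hf h0 => ?_⟩
    have hs : ∀ s ∈ T, ∀ x, f (x * s) = f x := by
      intro s hs x
      have h1 : dl G R s f = 0 := by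
        refine hW _ (mem_succ.1 hf s) fun w hw => ?_
        rw [dl_apply, h0 w (by simp [hw]), h0 (w * s) ?_, sub_zero]
        simp only [Finset.mem_insert, Finset.mem_union, Finset.mem_image, Finset.mem_product,
          Prod.exists]
        exact Or.inr (Or.inr ⟨w, s, ⟨hw, hs⟩, rfl⟩)
      have h2 := congrFun h1 x
      rw [dl_apply] at h2
      exact sub_eq_zero.1 h2
    have hall : ∀ x : G, f x = f 1 := by
      intro x
      have hx : x ∈ Submonoid.closure (T : Set G) := by
        rw [hcl]
        trivial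
      induction hx using Submonoid.closure_induction_right with
      | one => rfl
      | mul_right x _ y hy ih => rw [hs y hy, ih]
    funext x
    rw [hall x, h0 1 (by simp)]
    rfl

instance finite_zmod [Group.FG G] (m : ℕ) [NeZero m] (c : ℕ) : Finite (P G (ZMod m) c) := by
  obtain ⟨W, hW⟩ := exists_finset (G := G) (R := ZMod m) c
  refine Finite.of_injective (fun (f : P G (ZMod m) c) (w : W) => f.1 w) ?_
  intro f g hfg
  apply Subtype.ext
  have h1 := hW (f.1 - g.1) (Submodule.sub_mem _ f.2 g.2) fun w hw => by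
    have := congrFun hfg ⟨w, hw⟩
    simp only at this
    rw [Pi.sub_apply, this, sub_self]
  exact sub_eq_zero.1 h1

instance finite_int [Group.FG G] (c : ℕ) : Module.Finite ℤ (P G ℤ c) := by
  obtain ⟨W, hW⟩ := exists_finset (G := G) (R := ℤ) c
  let l : P G ℤ c →ₗ[ℤ] (W → ℤ) :=
    { toFun := fun f w => f.1 w
      map_add' := fun _ _ => rfl
      map_smul' := fun _ _ => rfl }
  refine Module.Finite.of_injective l ?_
  intro f g hfg
  apply Subtype.ext
  have h1 := hW (f.1 - g.1) (Submodule.sub_mem _ f.2 g.2) fun w hw => by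
    have := congrFun hfg ⟨w, hw⟩
    simp only [l, LinearMap.coe_mk, AddHom.coe_mk] at this
    rw [Pi.sub_apply, this, sub_self]
  exact sub_eq_zero.1 h1

end fin

/-! ### the congruence quotients -/

section cong

variable (G : Type) [Group G] (m c : ℕ)

/-- right translation of the functions with values in `ℤ/m` -/
def tr : G →* Function.End (P G (ZMod m) c) where
  toFun w f := ⟨fun u => f.1 (u * w), trans_mem f.2 w⟩
  map_one' := by
    funext f
    apply Subtype.ext
    funext u
    show f.1 (u * 1) = f.1 u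
    rw [mul_one]
  map_mul' w w' := by
    funext f
    apply Subtype.ext
    funext u
    show f.1 (u * (w * w')) = f.1 (u * w * w')
    rw [mul_assoc]

/-- the subgroup of the elements which translate the functions of degree less than `c` with values in
`ℤ/m` trivially -/
def Kc : Subgroup G := (tr G m c).toHomPerm.ker

variable {G m c}

theorem mem_Kc {w : G} : w ∈ Kc G m c ↔ ∀ f ∈ P G (ZMod m) c, ∀ u, f (u * w) = f u := by
  unfold Kc
  rw [MonoidHom.mem_ker]
  constructor
  · intro h f hf u
    have h1 := congrArg (fun e : Equiv.Perm (P G (ZMod m) c) => (e ⟨f, hf⟩).1 u) h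
    exact h1
  · intro h
    apply Equiv.ext
    intro f
    apply Subtype.ext
    funext u
    exact h f.1 f.2 u

instance Kc_normal : (Kc G m c).Normal := by
  unfold Kc
  infer_instance

instance Kc_finiteIndex [Group.FG G] [NeZero m] : (Kc G m c).FiniteIndex := by
  unfold Kc
  infer_instance

instance Kc_char : (Kc G m c).Characteristic := by
  refine Subgroup.characteristic_iff_le_comap.2 fun ψ w hw => ?_
  rw [Subgroup.mem_comap, mem_Kc]
  rw [mem_Kc] at hw
  intro f hf u
  have h1 := hw _ (comp_mem ψ.toMonoidHom c f hf) (ψ.symm u)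
  simpa using h1

theorem Kc_left {w : G} (hw : w ∈ Kc G m c) {f : G → ZMod m} (hf : f ∈ P G (ZMod m) c) (u : G) :
    f (w * u) = f u := by
  have h1 : u⁻¹ * w * u ∈ Kc G m c := by
    have := Kc_normal.conj_mem w hw u⁻¹
    simpa using this
  have h2 := mem_Kc.1 h1 f hf u
  rw [← h2]
  congr 1
  group

end cong

/-! ### class functions -/

/-- the class functions of degree less than `c` -/
def CP (G R : Type) [Group G] [CommRing R] (c : ℕ) : Submodule R (G → R) where
  carrier := {f | f ∈ P G R c ∧ ∀ g x, f (g * x * g⁻¹) = f x}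
  add_mem' := fun {a b} ha hb => ⟨Submodule.add_mem _ ha.1 hb.1, fun g x => by
    rw [Pi.add_apply, Pi.add_apply, ha.2, hb.2]⟩
  zero_mem' := ⟨Submodule.zero_mem _, fun _ _ => rfl⟩
  smul_mem' := fun r a ha => ⟨Submodule.smul_mem _ r ha.1, fun g x => by
    rw [Pi.smul_apply, Pi.smul_apply, ha.2]⟩

section cls

variable {G R : Type} [Group G] [CommRing R]

theorem mem_CP {c : ℕ} {f : G → R} :
    f ∈ CP G R c ↔ f ∈ P G R c ∧ ∀ g x, f (g * x * g⁻¹) = f x := Iff.rfl

theorem CP_le (c : ℕ) : CP G R c ≤ P G R c := fun _ h => h.1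

theorem CP_mono {c d : ℕ} (h : c ≤ d) : CP G R c ≤ CP G R d := fun _ hf => ⟨mono h hf.1, hf.2⟩

theorem CP_comp {c : ℕ} {f : G → R} (hf : f ∈ CP G R c) (ψ : MulAut G) :
    (fun x => f (ψ x)) ∈ CP G R c := by
  refine ⟨comp_mem ψ.toMonoidHom c f hf.1, fun g x => ?_⟩
  simp only [map_mul, map_inv]
  exact hf.2 _ _

instance CP_finite [Group.FG G] (c : ℕ) : Module.Finite ℤ (CP G ℤ c) :=
  Module.Finite.of_injective (Submodule.inclusion (CP_le c))
    (Submodule.inclusion_injective _)

/-- the action of the automorphisms on the class functions of degree less than `c` -/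
def act (G : Type) [Group G] (c : ℕ) : MulAut G →* Module.End ℤ (CP G ℤ c) where
  toFun ψ :=
    { toFun := fun f => ⟨fun x => f.1 (ψ⁻¹ x), CP_comp f.2 ψ⁻¹⟩
      map_add' := fun _ _ => rfl
      map_smul' := fun _ _ => rfl }
  map_one' := rfl
  map_mul' ψ φ := by
    apply LinearMap.ext
    intro f
    apply Subtype.ext
    funext x
    simp [mul_inv_rev]

theorem act_apply (c : ℕ) (ψ : MulAut G) (f : CP G ℤ c) (x : G) :
    (act G c ψ f).1 x = f.1 (ψ⁻¹ x) := rfl

theorem act_conj (c : ℕ) (g : G) : act G c (MulAut.conj g) = 1 := by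
  apply LinearMap.ext
  intro f
  apply Subtype.ext
  funext x
  rw [act_apply, ← map_inv, MulAut.conj_apply]
  exact f.2.2 _ _

/-- an automorphism which is inner modulo `Kc G m c` acts on the class functions trivially modulo
`m` -/
theorem act_cong {m c : ℕ} (hm : m ≠ 0) {ψ : MulAut G}
    (h : ∃ g, ∀ x, ψ x * (g * x * g⁻¹)⁻¹ ∈ Kc G m c) :
    ∃ D : Module.End ℤ (CP G ℤ c), act G c ψ = 1 + (m : ℤ) • D := by
  obtain ⟨g, hg⟩ := h
  have hm' : (m : ℤ) ≠ 0 := by exact_mod_cast hm
  -- the values
  have h1 : ∀ f ∈ CP G ℤ c, ∀ x, (m : ℤ) ∣ f (ψ x) - f x := by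
    intro f hf x
    have h2 := Kc_left (hg x) (reduce m hf.1) (g * x * g⁻¹)
    simp only [inv_mul_cancel_right] at h2
    rw [hf.2 g x] at h2
    rw [← ZMod.intCast_zmod_eq_zero_iff_dvd, Int.cast_sub, h2, sub_self]
  have h3 : ∀ f ∈ CP G ℤ c, ∀ x, (m : ℤ) ∣ f (ψ⁻¹ x) - f x := by
    intro f hf x
    have h4 := h1 f hf (ψ⁻¹ x)
    rw [MulAut.apply_inv_self] at h4
    exact (dvd_sub_comm).1 h4
  have h5 : ∀ f ∈ CP G ℤ c, (fun x => (f (ψ⁻¹ x) - f x) / (m : ℤ)) ∈ CP G ℤ c := by
    intro f hf
    have h6 : (fun x => (m : ℤ) * ((f (ψ⁻¹ x) - f x) / (m : ℤ))) ∈ CP G ℤ c := by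
      have h7 : (fun x => (m : ℤ) * ((f (ψ⁻¹ x) - f x) / (m : ℤ))) =
          (fun x => f (ψ⁻¹ x)) - f := by
        funext x
        rw [Int.mul_ediv_cancel' (h3 f hf x)]
        rfl
      rw [h7]
      exact Submodule.sub_mem _ (CP_comp hf ψ⁻¹) hf
    refine ⟨pure hm' h6.1, fun a x => ?_⟩
    have h8 := h6.2 a x
    exact mul_left_cancel₀ hm' h8
  refine ⟨{ toFun := fun f => ⟨_, h5 f.1 f.2⟩, map_add' := ?_, map_smul' := ?_ }, ?_⟩
  · intro f f'
    apply Subtype.ext
    funext x
    show (f.1 (ψ⁻¹ x) + f'.1 (ψ⁻¹ x) - (f.1 x + f'.1 x)) / (m : ℤ) =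
      (f.1 (ψ⁻¹ x) - f.1 x) / (m : ℤ) + (f'.1 (ψ⁻¹ x) - f'.1 x) / (m : ℤ)
    rw [← Int.add_ediv_of_dvd_left (h3 f.1 f.2 x)]
    congr 1
    ring
  · intro r f
    apply Subtype.ext
    funext x
    show (r * f.1 (ψ⁻¹ x) - r * f.1 x) / (m : ℤ) = r * ((f.1 (ψ⁻¹ x) - f.1 x) / (m : ℤ))
    rw [← mul_sub, Int.mul_ediv_assoc _ (h3 f.1 f.2 x)]
  · apply LinearMap.ext
    intro f
    apply Subtype.ext
    funext x
    show f.1 (ψ⁻¹ x) = f.1 x + (m : ℤ) * ((f.1 (ψ⁻¹ x) - f.1 x) / (m : ℤ))
    rw [Int.mul_ediv_cancel' (h3 f.1 f.2 x)]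
    ring

end cls

end Pool.Agent.H4.CS
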