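import Mathlib
import Pool.Agent.H4.CS.Pol

/-!
# The congruence quotients are nilpotent
-/

set_option autoImplicit false

namespace Pool.Agent.H4.CS

open scoped commutatorElement

theorem dl_lcs {G R : Type} [Group G] [CommRing R] (i : ℕ) :
    ∀ w ∈ (⊤ : Subgroup G).lowerCentralSeries i, ∀ c, ∀ f ∈ P G R (c + i + 1),
      dl G R w f ∈ P G R c := by
  induction i with
  | zero =>
    intro w _ c f hf
    exact mem_succ.1 hf w
  | succ i ih =>
    let S : Subgroup G :=
      { carrier := {w | ∀ c, ∀ f ∈ P G R (c + (i + 1) + 1), dl G R w f ∈ P G R c}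
        one_mem' := by
          intro c f _
          have h : dl G R 1 f = 0 := by
            funext x
            rw [dl_apply, mul_one, sub_self]
            rfl
          rw [h]
          exact Submodule.zero_mem _
        mul_mem' := by
          intro a b ha hb c f hf
          have h : dl G R (a * b) f = dl G R a (dl G R b f) + dl G R b f + dl G R a f := by
            funext x
            simp only [dl_apply, Pi.add_apply, mul_assoc]
            ring
          rw [h]
          exact Submodule.add_mem _ (Submodule.add_mem _ (dl_mem (hb c f hf) a) (hb c f hf))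
            (ha c f hf)
        inv_mem' := by
          intro a ha c f hf
          have h : dl G R a⁻¹ f = -fun x => dl G R a f (x * a⁻¹) := by
            funext x
            simp [dl_apply]
          rw [h]
          exact Submodule.neg_mem _ (trans_mem (ha c f hf) a⁻¹) }
    have hS : (⊤ : Subgroup G).lowerCentralSeries (i + 1) ≤ S := by
      rw [Subgroup.lowerCentralSeries_succ, Subgroup.commutator_le]
      intro a ha b _ c f hf
      have hf' : (fun x => f (x * (a⁻¹ * b⁻¹))) ∈ P G R (c + (i + 1) + 1) := trans_mem hf _
      have h : dl G R ⁅a, b⁆ f = dl G R a (dl G R b fun x => f (x * (a⁻¹ * b⁻¹))) -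
          dl G R b (dl G R a fun x => f (x * (a⁻¹ * b⁻¹))) := by
        funext x
        simp only [dl_apply, Pi.sub_apply, commutatorElement_def, mul_assoc, mul_inv_cancel,
          mul_inv_cancel_left, mul_one]
        ring
      rw [h]
      refine Submodule.sub_mem _ ?_ ?_
      · apply ih a ha
        exact mem_succ.1 hf' b
      · have h2 : dl G R a (fun x => f (x * (a⁻¹ * b⁻¹))) ∈ P G R (c + 1) := by
          apply ih a ha
          have h3 : c + 1 + i + 1 = c + (i + 1) + 1 := by omega
          rw [h3]
          exact hf'
        exact mem_succ.1 h2 b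
    exact fun w hw => hS hw

theorem lcs_le_Kc (G : Type) [Group G] (m c : ℕ) :
    (⊤ : Subgroup G).lowerCentralSeries c ≤ Kc G m c := by
  intro w hw
  rw [mem_Kc]
  intro f hf u
  have h1 : dl G (ZMod m) w f ∈ P G (ZMod m) 0 := by
    apply dl_lcs c w hw
    exact mono (by omega) hf
  rw [mem_zero] at h1
  have h2 := congrFun h1 u
  rw [dl_apply] at h2
  exact sub_eq_zero.1 h2

theorem nil_iff {G : Type} [Group G] (K : Subgroup G) [K.Normal] :
    Group.IsNilpotent (G ⧸ K) ↔ ∃ c, (⊤ : Subgroup G).lowerCentralSeries c ≤ K := by
  rw [Subgroup.nilpotent_iff_lowerCentralSeries]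
  apply exists_congr
  intro c
  have h1 : ((⊤ : Subgroup G).lowerCentralSeries c).map (QuotientGroup.mk' K) =
      (⊤ : Subgroup (G ⧸ K)).lowerCentralSeries c := by
    rw [Subgroup.map_lowerCentralSeries]
    congr 1
    exact Subgroup.map_top_of_surjective _ (QuotientGroup.mk'_surjective K)
  rw [← h1, Subgroup.map_eq_bot_iff, QuotientGroup.ker_mk']

instance Kc_nil (G : Type) [Group G] (m c : ℕ) : Group.IsNilpotent (G ⧸ Kc G m c) :=
  (nil_iff _).2 ⟨c, lcs_le_Kc G m c⟩

end Pool.Agent.H4.CS
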