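import Mathlib
import Pool.Agent.H4.CS.Nil

/-!
# Outer automorphism groups and the maps `Out G → Out (G ⧸ K)`
-/

set_option autoImplicit false

namespace Pool.Agent.H4.CS

/-- the group of inner automorphisms -/
def Inn (G : Type) [Group G] : Subgroup (MulAut G) := (MulAut.conj : G →* MulAut G).range

instance Inn_normal (G : Type) [Group G] : (Inn G).Normal := by
  refine ⟨?_⟩
  rintro _ ⟨g, rfl⟩ ψ
  refine ⟨ψ g, ?_⟩
  ext x
  simp [MulAut.conj_apply]

/-- the outer automorphism group -/
abbrev Out (G : Type) [Group G] : Type := MulAut G ⧸ Inn G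

/-- the automorphism of `G ⧸ K` induced by an automorphism of `G`, for `K` characteristic -/
def autMap {G : Type} [Group G] (K : Subgroup G) [K.Characteristic] :
    MulAut G →* MulAut (G ⧸ K) where
  toFun ψ := QuotientGroup.congr K K ψ (Subgroup.characteristic_iff_map_eq.1 inferInstance ψ)
  map_one' := by
    ext x
    induction x using QuotientGroup.induction_on with
    | H x => rfl
  map_mul' ψ φ := by
    ext x
    induction x using QuotientGroup.induction_on with
    | H x => rfl

theorem autMap_mk {G : Type} [Group G] (K : Subgroup G) [K.Characteristic] (ψ : MulAut G)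
    (x : G) : autMap K ψ (x : G ⧸ K) = (ψ x : G ⧸ K) := rfl

/-- the homomorphism `Out G → Out (G ⧸ K)`, for `K` characteristic -/
def rho {G : Type} [Group G] (K : Subgroup G) [K.Characteristic] : Out G →* Out (G ⧸ K) :=
  QuotientGroup.map (Inn G) (Inn (G ⧸ K)) (autMap K) (by
    rintro _ ⟨g, rfl⟩
    refine ⟨(g : G ⧸ K), ?_⟩
    ext x
    induction x using QuotientGroup.induction_on with
    | H x => rfl)

theorem mem_ker_rho {G : Type} [Group G] (K : Subgroup G) [K.Characteristic] (ψ : MulAut G) :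
    (QuotientGroup.mk ψ : Out G) ∈ (rho K).ker ↔
      ∃ g : G, ∀ x : G, ψ x * (g * x * g⁻¹)⁻¹ ∈ K := by
  rw [MonoidHom.mem_ker]
  change (QuotientGroup.mk (autMap K ψ) : Out (G ⧸ K)) = 1 ↔ _
  rw [QuotientGroup.eq_one_iff]
  constructor
  · rintro ⟨g, hg⟩
    induction g using QuotientGroup.induction_on with
    | H g =>
      refine ⟨g, fun x => ?_⟩
      have h1 := DFunLike.congr_fun hg (x : G ⧸ K)
      rw [← QuotientGroup.eq_one_iff, QuotientGroup.mk_mul, QuotientGroup.mk_inv, mul_inv_eq_one]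
      exact h1.symm
  · rintro ⟨g, hg⟩
    refine ⟨(g : G ⧸ K), ?_⟩
    ext x
    induction x using QuotientGroup.induction_on with
    | H x =>
      have h1 := hg x
      rw [← QuotientGroup.eq_one_iff, QuotientGroup.mk_mul, QuotientGroup.mk_inv,
        mul_inv_eq_one] at h1
      exact h1.symm

theorem ker_rho_mono {G : Type} [Group G] {K K' : Subgroup G} [K.Characteristic]
    [K'.Characteristic] (h : K ≤ K') : (rho K).ker ≤ (rho K').ker := by
  intro x hx
  induction x using QuotientGroup.induction_on with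
  | H ψ =>
    rw [mem_ker_rho] at hx ⊢
    obtain ⟨g, hg⟩ := hx
    exact ⟨g, fun x => h (hg x)⟩

/-- the kernels of the maps `ρ_K`, for the characteristic subgroups `K` of finite index with nilpotent
quotient -/
def Kers (G : Type) [Group G] : Set (Subgroup (Out G)) :=
  {L | ∃ (K : Subgroup G) (_ : K.Characteristic), K.FiniteIndex ∧ Group.IsNilpotent (G ⧸ K) ∧
    L = (rho K).ker}

theorem Kers_normal (G : Type) [Group G] : ∀ L ∈ Kers G, L.Normal := by
  rintro _ ⟨K, _, _, _, rfl⟩
  infer_instance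

theorem Kers_nonempty (G : Type) [Group G] : (Kers G).Nonempty :=
  ⟨_, ⊤, inferInstance, inferInstance, (nil_iff _).2 ⟨0, le_top⟩, rfl⟩

theorem Kers_dir (G : Type) [Group G] :
    ∀ L₁ ∈ Kers G, ∀ L₂ ∈ Kers G, ∃ L ∈ Kers G, L ≤ L₁ ∧ L ≤ L₂ := by
  rintro _ ⟨K, h1, h2, h6, rfl⟩ _ ⟨K', h3, h4, h7, rfl⟩
  have h5 : (K ⊓ K').Characteristic := by
    rw [Subgroup.characteristic_iff_comap_eq] at *
    intro φ
    rw [Subgroup.comap_inf, h1 φ, h3 φ]
  have h8 : Group.IsNilpotent (G ⧸ (K ⊓ K')) := by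
    rw [nil_iff] at h6 h7 ⊢
    obtain ⟨c, hc⟩ := h6
    obtain ⟨c', hc'⟩ := h7
    exact ⟨max c c', le_inf
      (((⊤ : Subgroup G).lowerCentralSeries_antitone (le_max_left c c')).trans hc)
      (((⊤ : Subgroup G).lowerCentralSeries_antitone (le_max_right c c')).trans hc')⟩
  exact ⟨_, ⟨K ⊓ K', h5, inferInstance, h8, rfl⟩, ker_rho_mono inf_le_left,
    ker_rho_mono inf_le_right⟩

end Pool.Agent.H4.CS
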