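import Pool.Agent.H4.CS.Cyc

/-!
# An automorphism of a free group acting trivially on all class functions of bounded degree is inner
-/

set_option autoImplicit false

namespace Pool.Agent.H4.CS

open Polynomial

variable {n : ℕ}

/-- no class function of bounded degree separates the two elements -/
def Same (v w : FreeGroup (Fin n)) : Prop :=
  ∀ c : ℕ, ∀ f ∈ CP (FreeGroup (Fin n)) ℤ c, f v = f w

theorem Same.symm {v w : FreeGroup (Fin n)} (h : Same v w) : Same w v := fun c f hf => (h c f hf).symm

theorem Same.trans {u v w : FreeGroup (Fin n)} (h : Same u v) (h' : Same v w) : Same u w :=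
  fun c f hf => (h c f hf).trans (h' c f hf)

theorem same_of_isConj {v w : FreeGroup (Fin n)} (h : IsConj v w) : Same v w := by
  intro c f hf
  obtain ⟨g, hg⟩ := isConj_iff.1 h
  rw [← hg]
  exact (hf.2 g v).symm

/-- cyclically reduced lists of syllables -/
def Red (L : List (Fin n × ℤ)) : Prop :=
  (∀ p ∈ L, p.2 ≠ 0) ∧ L.IsChain (fun p q => p.1 ≠ q.1) ∧
    ∀ p ∈ L.getLast?, ∀ q ∈ L.head?, p.1 ≠ q.1

theorem Same.length {L M : List (Fin n × ℤ)} (hL : Red L) (h2 : 2 ≤ L.length)
    (h : Same (val L) (val M)) : L.length ≤ M.length := by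
  by_contra hlt
  push Not at hlt
  obtain ⟨h0, hch, hcy⟩ := hL
  have : NeZero L.length := ⟨by omega⟩
  set κ : Fin L.length → Fin n := fun r => (L[r.val]).1 with hκd
  have hκ : ∀ r, κ r ≠ κ (r + 1) := by
    intro r
    by_cases hr : r.val + 1 < L.length
    · have h1 : (r + 1).val = r.val + 1 := by
        rw [Fin.val_add_one_of_lt']
        exact hr
      simp only [hκd]
      have h2 := List.isChain_iff_getElem.1 hch r.val hr
      have h3 : L[(r + 1).val] = L[r.val + 1] := by
        congr 1
      rw [h3]
      exact h2
    · have h4 : r.val = L.length - 1 := by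
        have := r.isLt
        omega
      have h1 : (r + 1).val = 0 := by
        have h5 : r + 1 = 0 := by
          apply Fin.ext
          rw [Fin.val_add]
          have h6 : ((1 : Fin L.length)).val = 1 := by
            rw [Fin.val_one', Nat.mod_eq_of_lt (by omega)]
          rw [h6, h4]
          have h7 : L.length - 1 + 1 = L.length := by omega
          rw [h7]
          simp
        rw [h5]
        simp
      simp only [hκd]
      have h3 : L[(r + 1).val] = L[0] := by
        congr 1
      have h8 : L[r.val] = L[L.length - 1] := by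
        congr 1
      rw [h3, h8]
      refine hcy _ ?_ _ ?_
      · rw [List.getLast?_eq_getElem?]
        simp
      · rw [List.head?_eq_getElem?]
        simp
  have hκL : ∀ (j : ℕ) (hj : j < L.length), κ (Fin.ofNat L.length j) = (L[j]).1 := by
    intro j hj
    simp only [hκd]
    congr 2
    simp [Fin.ofNat, Nat.mod_eq_of_lt hj]
  have h5 : lam L.length (rp hκ (val L) : (Matrix (Fin L.length) (Fin L.length) ℤ)[X]) =
      lam L.length (rp hκ (val M) : (Matrix (Fin L.length) (Fin L.length) ℤ)[X]) :=
    h _ _ (lam_class (rp hκ) (rp_one hκ) L.length)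
  rw [short hκ hlt] at h5
  exact long_ne hκ rfl hκL h0 h5

theorem exists_val (w : FreeGroup (Fin n)) : ∃ L, w = val L := by
  induction w using FreeGroup.induction_on with
  | C1 => exact ⟨[], rfl⟩
  | of i => exact ⟨[(i, 1)], by simp [val]⟩
  | inv_of i _ => exact ⟨[(i, -1)], by simp [val]⟩
  | mul x y hx hy =>
    obtain ⟨L, rfl⟩ := hx
    obtain ⟨M, rfl⟩ := hy
    exact ⟨L ++ M, (val_append _ _).symm⟩

theorem drop_zero {L : List (Fin n × ℤ)} (h : ¬ ∀ p ∈ L, p.2 ≠ 0) :
    ∃ M, M.length < L.length ∧ val L = val M := by
  push Not at h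
  obtain ⟨p, hp, hp0⟩ := h
  obtain ⟨s, t, rfl⟩ := List.append_of_mem hp
  refine ⟨s ++ t, by simp, ?_⟩
  rw [val_append, val_cons, hp0, zpow_zero, one_mul, val_append]

theorem merge {L : List (Fin n × ℤ)} (h : ¬ L.IsChain (fun p q => p.1 ≠ q.1)) :
    ∃ M, M.length < L.length ∧ val L = val M := by
  rw [List.isChain_iff_getElem] at h
  push Not at h
  obtain ⟨i, hi, he⟩ := h
  have h1 : L = L.take i ++ L[i] :: L[i + 1] :: L.drop (i + 2) := by
    conv_lhs => rw [← List.take_append_drop i L]
    congr 1
    rw [List.drop_eq_getElem_cons (by omega), List.drop_eq_getElem_cons (by omega)]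
  refine ⟨L.take i ++ (L[i].1, L[i].2 + L[i + 1].2) :: L.drop (i + 2), ?_, ?_⟩
  · simp
    omega
  · conv_lhs => rw [h1]
    rw [val_append, val_cons, val_cons, val_append, val_cons, zpow_add, he]
    simp only [mul_assoc]

theorem exists_red (L : List (Fin n × ℤ)) :
    ∃ M, IsConj (val L) (val M) ∧ (∀ p ∈ M, p.2 ≠ 0) ∧ (M.length ≤ 1 ∨ Red M) := by
  induction hm : L.length using Nat.strong_induction_on generalizing L with
  | _ m ih =>
    by_cases h0 : ∀ p ∈ L, p.2 ≠ 0
    · by_cases hch : L.IsChain (fun p q => p.1 ≠ q.1)
      · by_cases h1 : L.length ≤ 1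
        · exact ⟨L, IsConj.refl _, h0, Or.inl h1⟩
        · by_cases hcy : ∀ p ∈ L.getLast?, ∀ q ∈ L.head?, p.1 ≠ q.1
          · exact ⟨L, IsConj.refl _, h0, Or.inr ⟨h0, hch, hcy⟩⟩
          · push Not at hcy
            obtain ⟨p, hp, q, hq, hpq⟩ := hcy
            obtain ⟨M, hM⟩ : ∃ M, L = q :: M := by
              cases L with
              | nil => simp at hq
              | cons a M =>
                simp only [List.head?_cons, Option.mem_def, Option.some.injEq] at hq
                exact ⟨M, by rw [hq]⟩
            obtain ⟨M', hM'⟩ : ∃ M', M = M' ++ [p] := by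
              subst hM
              cases M using List.reverseRecOn with
              | nil => simp at h1
              | append_singleton M' a =>
                rw [← List.cons_append, List.getLast?_append] at hp
                simp only [List.getLast?_singleton, Option.some_or, Option.mem_def,
                  Option.some.injEq] at hp
                exact ⟨M', by rw [hp]⟩
            subst hM'
            subst hM
            obtain ⟨K, hK, hK'⟩ := ih (M' ++ [(q.1, p.2 + q.2)]).length (by
              rw [← hm]
              simp) _ rfl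
            refine ⟨K, IsConj.trans ?_ hK, hK'⟩
            rw [isConj_iff]
            refine ⟨(FreeGroup.of q.1 ^ q.2)⁻¹, ?_⟩
            rw [val_cons, val_append, val_append, val_cons, val_cons, val_nil, hpq, zpow_add]
            group
      · obtain ⟨M, hM, hv⟩ := merge hch
        obtain ⟨K, hK⟩ := ih M.length (by omega) M rfl
        exact ⟨K, by rw [hv]; exact hK.1, hK.2⟩
    · obtain ⟨M, hM, hv⟩ := drop_zero h0
      obtain ⟨K, hK⟩ := ih M.length (by omega) M rfl
      exact ⟨K, by rw [hv]; exact hK.1, hK.2⟩

theorem ex_zpow (i j : Fin n) (e : ℤ) :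
    ex i (FreeGroup.of j ^ e) = if j = i then e else 0 := by
  have h : ∀ w : FreeGroup (Fin n), ∀ m : ℕ, ex i (w ^ m) = m * ex i w := by
    intro w m
    induction m with
    | zero => simp [ex_one]
    | succ m ih =>
      rw [pow_succ, ex_mul, ih]
      push_cast
      ring
  cases e with
  | ofNat m =>
    rw [Int.ofNat_eq_natCast, zpow_natCast, h, ex_of]
    split_ifs <;> simp
  | negSucc m =>
    rw [zpow_negSucc, ex_inv, h, ex_of, Int.negSucc_eq]
    split_ifs <;> push_cast <;> ring

/-- an element which cannot be separated from a generator is conjugate to it -/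
theorem conj_of {w : FreeGroup (Fin n)} {i : Fin n} (h : Same w (FreeGroup.of i)) :
    IsConj w (FreeGroup.of i) := by
  obtain ⟨L, rfl⟩ := exists_val w
  obtain ⟨M, hM, h0, h1⟩ := exists_red L
  have h2 : Same (val M) (FreeGroup.of i) := (same_of_isConj hM).symm.trans h
  refine hM.trans ?_
  have h3 : M.length ≤ 1 := by
    rcases h1 with h1 | h1
    · exact h1
    · by_contra h3
      have h4 : FreeGroup.of i = val [(i, (1 : ℤ))] := by simp [val]
      rw [h4] at h2
      have := h2.length h1 (by omega)
      simp at this
      omega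
  match M, h3 with
  | [], _ =>
    exfalso
    have h4 := h2 2 _ (ex_mem i)
    rw [val_nil, ex_one, ex_of, if_pos rfl] at h4
    exact zero_ne_one h4
  | [(j, e)], _ =>
    have h4 := h2 2 _ (ex_mem i)
    rw [val_cons, val_nil, mul_one, ex_zpow, ex_of, if_pos rfl] at h4
    by_cases hj : j = i
    · rw [if_pos hj] at h4
      rw [val_cons, val_nil, mul_one]
      simp only at h4 ⊢
      rw [h4, hj, zpow_one]
    · rw [if_neg hj] at h4
      exact absurd h4 zero_ne_one

/-- the elements without syllables on the left and on the right -/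
theorem exists_mid (i j : Fin n) (L : List (Fin n × ℤ)) :
    ∃ (a b : ℤ) (M : List (Fin n × ℤ)), val L = FreeGroup.of i ^ a * val M * FreeGroup.of j ^ b ∧
      (∀ p ∈ M, p.2 ≠ 0) ∧ M.IsChain (fun p q => p.1 ≠ q.1) ∧
      (∀ p ∈ M.head?, p.1 ≠ i) ∧ ∀ p ∈ M.getLast?, p.1 ≠ j := by
  induction hm : L.length using Nat.strong_induction_on generalizing L with
  | _ m ih =>
    by_cases h0 : ∀ p ∈ L, p.2 ≠ 0
    · by_cases hch : L.IsChain (fun p q => p.1 ≠ q.1)
      · by_cases hh : ∀ p ∈ L.head?, p.1 ≠ i
        · by_cases hl : ∀ p ∈ L.getLast?, p.1 ≠ j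
          · exact ⟨0, 0, L, by simp, h0, hch, hh, hl⟩
          · push Not at hl
            obtain ⟨p, hp, hpj⟩ := hl
            obtain ⟨M', hM'⟩ : ∃ M', L = M' ++ [p] := by
              cases L using List.reverseRecOn with
              | nil => simp at hp
              | append_singleton M' a =>
                rw [List.getLast?_append] at hp
                simp only [List.getLast?_singleton, Option.some_or, Option.mem_def,
                  Option.some.injEq] at hp
                exact ⟨M', by rw [hp]⟩
            subst hM'
            obtain ⟨a, b, K, hK, hK'⟩ := ih M'.length (by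
              rw [← hm]
              simp) M' rfl
            refine ⟨a, b + p.2, K, ?_, hK'⟩
            rw [val_append, hK, val_cons, val_nil, hpj, zpow_add]
            group
        · push Not at hh
          obtain ⟨p, hp, hpj⟩ := hh
          obtain ⟨M, hM⟩ : ∃ M, L = p :: M := by
            cases L with
            | nil => simp at hp
            | cons a M =>
              simp only [List.head?_cons, Option.mem_def, Option.some.injEq] at hp
              exact ⟨M, by rw [hp]⟩
          subst hM
          obtain ⟨a, b, K, hK, hK'⟩ := ih M.length (by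
              rw [← hm]
              simp) M rfl
          refine ⟨p.2 + a, b, K, ?_, hK'⟩
          rw [val_cons, hK, hpj, zpow_add]
          group
      · obtain ⟨M, hM, hv⟩ := merge hch
        obtain ⟨a, b, K, hK, hK'⟩ := ih M.length (by omega) M rfl
        exact ⟨a, b, K, by rw [hv]; exact hK, hK'⟩
    · obtain ⟨M, hM, hv⟩ := drop_zero h0
      obtain ⟨a, b, K, hK, hK'⟩ := ih M.length (by omega) M rfl
      exact ⟨a, b, K, by rw [hv]; exact hK, hK'⟩

/-- the inverse list -/
def inv (L : List (Fin n × ℤ)) : List (Fin n × ℤ) := (L.map fun p => (p.1, -p.2)).reverse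

theorem val_inv (L : List (Fin n × ℤ)) : val (inv L) = (val L)⁻¹ := by
  induction L with
  | nil => simp [inv, val]
  | cons p L ih =>
    have h1 : inv (p :: L) = inv L ++ [(p.1, -p.2)] := by simp [inv]
    rw [h1, val_append, ih, val_cons, val_cons, val_nil, mul_inv_rev, mul_one, zpow_neg]

theorem red_big {i j : Fin n} {M : List (Fin n × ℤ)} (hne : M ≠ [])
    (h0 : ∀ p ∈ M, p.2 ≠ 0) (hch : M.IsChain (fun p q => p.1 ≠ q.1))
    (hh : ∀ p ∈ M.head?, p.1 ≠ i) (hl : ∀ p ∈ M.getLast?, p.1 ≠ j) :
    Red ([(i, (1 : ℤ))] ++ M ++ [(j, 1)] ++ inv M) := by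
  have hinv_ch : (inv M).IsChain (fun p q => p.1 ≠ q.1) := by
    unfold inv
    rw [List.isChain_reverse, List.isChain_map]
    refine hch.imp fun p q h => ?_
    exact fun h' => h h'.symm
  have hinv_head : ∀ p ∈ (inv M).head?, p.1 ≠ j := by
    intro p hp
    unfold inv at hp
    rw [List.head?_reverse, List.getLast?_map] at hp
    simp only [Option.mem_def, Option.map_eq_some_iff] at hp
    obtain ⟨q, hq, rfl⟩ := hp
    exact hl q hq
  have hinv_last : ∀ p ∈ (inv M).getLast?, p.1 ≠ i := by
    intro p hp
    unfold inv at hp
    rw [List.getLast?_reverse, List.head?_map] at hp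
    simp only [Option.mem_def, Option.map_eq_some_iff] at hp
    obtain ⟨q, hq, rfl⟩ := hp
    exact hh q hq
  have hinv_ne : inv M ≠ [] := by
    unfold inv
    simpa using hne
  refine ⟨?_, ?_, ?_⟩
  · intro p hp
    simp only [List.mem_append, List.mem_singleton, inv, List.mem_reverse, List.mem_map] at hp
    rcases hp with ((rfl | hp) | rfl) | ⟨q, hq, rfl⟩
    · norm_num
    · exact h0 p hp
    · norm_num
    · simpa using h0 q hq
  · rw [List.isChain_append, List.isChain_append, List.isChain_append]
    refine ⟨⟨⟨by simp, hch, ?_⟩, by simp, ?_⟩, hinv_ch, ?_⟩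
    · intro x hx y hy
      simp only [List.getLast?_singleton, Option.mem_def, Option.some.injEq] at hx
      subst hx
      exact fun h => hh y hy h.symm
    · intro x hx y hy
      simp only [List.head?_cons, Option.mem_def, Option.some.injEq] at hy
      subst hy
      rw [List.getLast?_append_of_ne_nil _ hne] at hx
      exact hl x hx
    · intro x hx y hy
      rw [List.getLast?_append_of_ne_nil _ (by simp)] at hx
      simp only [List.getLast?_singleton, Option.mem_def, Option.some.injEq] at hx
      subst hx
      exact fun h => hinv_head y hy h.symm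
  · intro p hp q hq
    rw [List.getLast?_append_of_ne_nil _ hinv_ne] at hp
    simp only [List.cons_append, List.nil_append, List.head?_cons, Option.mem_def,
      Option.some.injEq] at hq
    subst hq
    exact hinv_last p hp

theorem length_inv (L : List (Fin n × ℤ)) : (inv L).length = L.length := by
  simp [inv]

/-- the values at two generators -/
theorem two {ψ : MulAut (FreeGroup (Fin n))} (h : ∀ w, Same (ψ w) w) {i j : Fin n}
    (hi : ψ (FreeGroup.of i) = FreeGroup.of i) :
    ∃ a : ℤ, ψ (FreeGroup.of j) = FreeGroup.of i ^ a * FreeGroup.of j * FreeGroup.of i ^ (-a) := by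
  obtain ⟨g, hg⟩ := isConj_iff.1 ((conj_of (h (FreeGroup.of j))).symm)
  obtain ⟨L, hL⟩ := exists_val g
  obtain ⟨a, b, M, hM, h0, hch, hh, hl⟩ := exists_mid i j L
  by_cases hne : M = []
  · refine ⟨a, ?_⟩
    rw [← hg, hL, hM, hne, val_nil]
    group
  · exfalso
    have h1 : IsConj (ψ (FreeGroup.of i * FreeGroup.of j))
        (val ([(i, (1 : ℤ))] ++ M ++ [(j, 1)] ++ inv M)) := by
      rw [isConj_iff]
      refine ⟨(FreeGroup.of i ^ a)⁻¹, ?_⟩
      rw [map_mul, hi, ← hg, hL, hM, val_append, val_append, val_append, val_inv, val_cons,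
        val_cons, val_nil]
      simp only [zpow_one]
      group
    have h2 : Same (val ([(i, (1 : ℤ))] ++ M ++ [(j, 1)] ++ inv M))
        (val [(i, (1 : ℤ)), (j, 1)]) := by
      have h3 : val [(i, (1 : ℤ)), (j, 1)] = FreeGroup.of i * FreeGroup.of j := by simp [val]
      rw [h3]
      exact (same_of_isConj h1).symm.trans (h _)
    have h4 : 1 ≤ M.length := List.length_pos_iff.2 hne
    have h5 := h2.length (red_big hne h0 hch hh hl) (by simp; omega)
    simp [length_inv] at h5
    omega

theorem eq_one {ψ : MulAut (FreeGroup (Fin n))}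
    (h : ∀ i, ψ (FreeGroup.of i) = FreeGroup.of i) : ψ = 1 := by
  have h1 : ψ.toMonoidHom = MonoidHom.id _ := by
    apply FreeGroup.ext_hom
    intro i
    exact h i
  apply MulEquiv.ext
  intro x
  exact congrArg (fun f => f x) h1

/-- **Separation.** An automorphism which acts trivially on all class functions of bounded degree is
inner. -/
theorem inner_of_same {ψ : MulAut (FreeGroup (Fin n))} (h : ∀ w, Same (ψ w) w) :
    ∃ g, ψ = MulAut.conj g := by
  have hcomp : ∀ (g w : FreeGroup (Fin n)),
      Same ((MulAut.conj g * ψ : MulAut (FreeGroup (Fin n))) w) w := by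
    intro g w
    refine Same.trans ?_ (h w)
    refine (same_of_isConj (isConj_iff.2 ⟨g, ?_⟩)).symm
    rfl
  rcases Nat.eq_zero_or_pos n with hn | hn
  · subst hn
    refine ⟨1, ?_⟩
    rw [map_one]
    exact eq_one fun i => i.elim0
  · set i0 : Fin n := ⟨0, hn⟩
    obtain ⟨g, hg⟩ := isConj_iff.1 (conj_of (h (FreeGroup.of i0)))
    set ψ₁ : MulAut (FreeGroup (Fin n)) := MulAut.conj g * ψ with hψ₁
    have h1 : ψ₁ (FreeGroup.of i0) = FreeGroup.of i0 := hg
    have hs1 : ∀ w, Same (ψ₁ w) w := hcomp g
    have h2 := fun j => two hs1 (j := j) h1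
    choose a ha using h2
    by_cases hn1 : n = 1
    · have h3 : ψ₁ = 1 := by
        apply eq_one
        intro i
        have : i = i0 := by
          apply Fin.ext
          have := i.isLt
          simp only [i0]
          omega
        rw [this, h1]
      refine ⟨g⁻¹, ?_⟩
      rw [map_inv, eq_inv_iff_mul_eq_one, ← h3]
      rw [hψ₁]
      have h4 : MulAut.conj g * ψ = 1 := h3
      have h5 : ψ * MulAut.conj g = 1 := by
        have : ψ = (MulAut.conj g)⁻¹ := (inv_eq_of_mul_eq_one_right h4).symm
        rw [this, inv_mul_cancel]
      rw [h5, h4]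
    · set i1 : Fin n := ⟨1, by omega⟩
      have h01 : i0 ≠ i1 := by
        intro h
        have := congrArg Fin.val h
        simp [i0, i1] at this
      set c : FreeGroup (Fin n) := FreeGroup.of i0 ^ (-a i1) with hc
      set ψ₂ : MulAut (FreeGroup (Fin n)) := MulAut.conj c * ψ₁ with hψ₂
      have hs2 : ∀ w, Same (ψ₂ w) w := by
        intro w
        refine Same.trans ?_ (hs1 w)
        exact (same_of_isConj (isConj_iff.2 ⟨c, rfl⟩)).symm
      have h20 : ψ₂ (FreeGroup.of i0) = FreeGroup.of i0 := by
        show c * ψ₁ (FreeGroup.of i0) * c⁻¹ = _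
        rw [h1, hc]
        group
      have h21 : ψ₂ (FreeGroup.of i1) = FreeGroup.of i1 := by
        show c * ψ₁ (FreeGroup.of i1) * c⁻¹ = _
        rw [ha i1, hc]
        group
      have h3 : ψ₂ = 1 := by
        apply eq_one
        intro j
        by_cases hj0 : j = i0
        · rw [hj0, h20]
        · by_cases hj1 : j = i1
          · rw [hj1, h21]
          · obtain ⟨e, he⟩ := two hs2 (j := j) h20
            by_cases he0 : e = 0
            · rw [he, he0]
              simp
            · exfalso
              have h4 : Same (val [(i1, (1 : ℤ)), (i0, e), (j, 1), (i0, -e)])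
                  (val [(i1, (1 : ℤ)), (j, 1)]) := by
                have h5 : val [(i1, (1 : ℤ)), (i0, e), (j, 1), (i0, -e)] =
                    ψ₂ (FreeGroup.of i1 * FreeGroup.of j) := by
                  rw [map_mul, h21, he]
                  simp [val, mul_assoc]
                have h6 : val [(i1, (1 : ℤ)), (j, 1)] = FreeGroup.of i1 * FreeGroup.of j := by
                  simp [val]
                rw [h5, h6]
                exact hs2 _
              have h7 := h4.length ⟨?_, ?_, ?_⟩ (by simp)
              · simp at h7
              · intro p hp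
                simp only [List.mem_cons, List.not_mem_nil, or_false] at hp
                rcases hp with rfl | rfl | rfl | rfl
                · norm_num
                · exact he0
                · norm_num
                · simpa using he0
              · simp only [List.isChain_cons_cons, List.isChain_singleton, and_true, ne_eq]
                exact ⟨fun h => h01 h.symm, fun h => hj0 h.symm, hj0⟩
              · intro p hp q hq
                simp only [List.getLast?_cons_cons, List.getLast?_singleton, Option.mem_def,
                  Option.some.injEq, List.head?_cons] at hp hq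
                subst hp
                subst hq
                exact h01
      refine ⟨(c * g)⁻¹, ?_⟩
      have h4 : MulAut.conj (c * g) * ψ = 1 := by
        rw [map_mul, mul_assoc]
        exact h3
      rw [map_inv]
      exact (inv_eq_of_mul_eq_one_right h4).symm

end Pool.Agent.H4.CS
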