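import Mathlib

/-!
# From abelian subgroups to virtually abelian subgroups

Abstract part: a group with a family of normal subgroups which induces the full profinite topology
on all finitely generated abelian subgroups.
-/

set_option autoImplicit false

namespace Pool.Agent.H4.CS

theorem rank_eq {Q : Type*} [AddCommGroup Q] [Module.Finite ℤ Q] (N' N : Submodule ℤ Q)
    (h : N' ≤ N) (hr : Module.finrank ℤ N' = Module.finrank ℤ N) (x : Q) (hx : x ∈ N) :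
    ∃ k : ℤ, k ≠ 0 ∧ k • x ∈ N' := by
  have h1 := Submodule.finrank_quotient_add_finrank (N'.submoduleOf N)
  rw [(Submodule.submoduleOfEquivOfLe h).finrank_eq, hr] at h1
  have h2 : Module.finrank ℤ (N ⧸ N'.submoduleOf N) = 0 := by omega
  rw [Module.finrank_eq_zero_iff] at h2
  obtain ⟨k, hk, hk2⟩ := h2 (Submodule.Quotient.mk ⟨x, hx⟩)
  refine ⟨k, hk, ?_⟩
  rw [← Submodule.Quotient.mk_smul, Submodule.Quotient.mk_eq_zero] at hk2
  exact hk2

/-- descending chains with torsion-free quotients stop -/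
theorem chain {M : Type*} [CommGroup M] [Group.FG M] (Z : ℕ → Subgroup M) (c0 : ℕ)
    (hmono : ∀ c, Z (c + 1) ≤ Z c)
    (htf : ∀ c, c0 ≤ c → ∀ x ∈ Z c, ∀ k : ℕ, k ≠ 0 → x ^ k ∈ Z (c + 1) → x ∈ Z (c + 1))
    (hsep : ∀ x, (∀ c, x ∈ Z c) → x = 1) : ∃ c, Z c = ⊥ := by
  have : Module.Finite ℤ (Additive M) := Module.Finite.iff_addGroup_fg.2 inferInstance
  let N : ℕ → Submodule ℤ (Additive M) := fun c => (Z c).toAddSubgroup.toIntSubmodule
  have hN : ∀ c, N (c + 1) ≤ N c := fun c x hx => hmono c hx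
  let f : ℕ → ℕ := fun c => Module.finrank ℤ (N c)
  have hf : ∀ c, f (c + 1) ≤ f c := fun c => Submodule.finrank_mono (hN c)
  have hanti : Antitone Z := antitone_nat_of_succ_le hmono
  have hfanti : Antitone f := antitone_nat_of_succ_le hf
  -- a place where the rank is minimal
  obtain ⟨c1, hc1, hc2⟩ : ∃ c1, c0 ≤ c1 ∧ ∀ c, c1 ≤ c → f c = f c1 := by
    obtain ⟨c1, hc1⟩ := WellFounded.has_min (wellFounded_lt (α := ℕ)) (Set.range f)
      ⟨f 0, ⟨0, rfl⟩⟩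
    obtain ⟨⟨c, rfl⟩, h2⟩ := hc1
    refine ⟨max c0 c, le_max_left _ _, ?_⟩
    intro d hd
    have h3 : f d ≤ f (max c0 c) := hfanti hd
    have h4 : f (max c0 c) ≤ f c := hfanti (le_max_right _ _)
    have h5 := h2 (f d) ⟨d, rfl⟩
    omega
  have hstep : ∀ c, c1 ≤ c → Z c ≤ Z (c + 1) := by
    intro c hc x hx
    have h1 : Module.finrank ℤ (N (c + 1)) = Module.finrank ℤ (N c) := by
      have h2 := hc2 c hc
      have h3 := hc2 (c + 1) (by omega)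
      exact h3.trans h2.symm
    obtain ⟨k, hk, hk2⟩ := rank_eq (N (c + 1)) (N c) (hN c) h1 (Additive.ofMul x) hx
    have hk3 : x ^ k ∈ Z (c + 1) := hk2
    refine htf c (hc1.trans hc) x hx k.natAbs (by simpa using hk) ?_
    rcases Int.natAbs_eq k with h | h
    · rw [h, zpow_natCast] at hk3
      exact hk3
    · rw [h, zpow_neg, zpow_natCast, inv_mem_iff] at hk3
      exact hk3
  have hstay : ∀ c, c1 ≤ c → Z c1 ≤ Z c := by
    intro c hc
    induction hc with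
    | refl => exact le_rfl
    | step h ih => exact ih.trans (hstep _ h)
  refine ⟨c1, ?_⟩
  rw [eq_bot_iff]
  intro x hx
  rw [Subgroup.mem_bot]
  apply hsep
  intro c
  rcases le_total c1 c with h | h
  · exact hstay c h hx
  · exact hanti h hx

section topology

variable {Γ : Type*} [Group Γ] (𝓛 : Set (Subgroup Γ))

/-- the family induces the full profinite topology on the finitely generated abelian subgroups -/
def Full : Prop := ∀ A : Subgroup Γ, (∀ a ∈ A, ∀ b ∈ A, a * b = b * a) → A.FG →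
  ∀ e : ℕ, e ≠ 0 → ∃ L ∈ 𝓛, ∀ t ∈ A, t ∈ L → ∃ s ∈ A, s ^ e = t

variable {𝓛}

theorem residual (hF : Full 𝓛) {φ : Γ} (h : ∀ L ∈ 𝓛, φ ∈ L) : φ = 1 := by
  have hcomm : ∀ a ∈ Subgroup.zpowers φ, ∀ b ∈ Subgroup.zpowers φ, a * b = b * a := by
    rintro _ ⟨i, rfl⟩ _ ⟨j, rfl⟩
    simp only
    rw [← zpow_add, ← zpow_add, add_comm]
  have hfg : (Subgroup.zpowers φ).FG := ⟨{φ}, by simp [Subgroup.zpowers_eq_closure]⟩
  have hφ : φ ∈ Subgroup.zpowers φ := Subgroup.mem_zpowers φ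
  by_cases ho : orderOf φ = 0
  · obtain ⟨L, hL, h1⟩ := hF _ hcomm hfg 2 two_ne_zero
    obtain ⟨_, ⟨i, rfl⟩, hi⟩ := h1 φ hφ (h L hL)
    exfalso
    have h2 : φ ^ (i * 2 - 1) = 1 := by
      rw [zpow_sub, zpow_mul, zpow_one, zpow_ofNat]
      simp only at hi
      rw [hi, mul_inv_cancel]
    have h3 : (orderOf φ : ℤ) ∣ i * 2 - 1 := orderOf_dvd_iff_zpow_eq_one.2 h2
    rw [ho] at h3
    simp only [Nat.cast_zero, zero_dvd_iff] at h3
    omega
  · obtain ⟨L, hL, h1⟩ := hF _ hcomm hfg (orderOf φ) ho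
    obtain ⟨_, ⟨i, rfl⟩, hi⟩ := h1 φ hφ (h L hL)
    simp only at hi
    rw [← hi, ← zpow_natCast, ← zpow_mul, mul_comm, zpow_mul, zpow_natCast, pow_orderOf_eq_one,
      one_zpow]

theorem closed (hF : Full 𝓛) (hN : ∀ L ∈ 𝓛, L.Normal) {A : Subgroup Γ}
    (hab : ∀ a ∈ A, ∀ b ∈ A, a * b = b * a) (hfg : A.FG) {φ : Γ}
    (h : ∀ L ∈ 𝓛, ∃ a ∈ A, a * φ ∈ L) : φ ∈ A := by
  have hcom : ∀ a ∈ A, a * φ = φ * a := by
    intro a ha
    have h1 : φ * a * φ⁻¹ * a⁻¹ = 1 := by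
      apply residual hF
      intro L hL
      obtain ⟨b, hb, hbL⟩ := h L hL
      have hLn := hN L hL
      have h2 : (b * φ) * (a * (b * φ)⁻¹ * a⁻¹) ∈ L :=
        L.mul_mem hbL (hLn.conj_mem _ (L.inv_mem hbL) a)
      have h3 := hLn.conj_mem _ h2 b⁻¹
      have h4 : b⁻¹ * (b * φ * (a * (b * φ)⁻¹ * a⁻¹)) * b⁻¹⁻¹ = φ * a * φ⁻¹ * a⁻¹ := by
        have h5 : b⁻¹ * a⁻¹ * b = a⁻¹ := by
          have h6 := hab _ (A.inv_mem hb) _ (A.inv_mem ha)
          rw [h6, inv_mul_cancel_right]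
        calc b⁻¹ * (b * φ * (a * (b * φ)⁻¹ * a⁻¹)) * b⁻¹⁻¹
            = φ * a * φ⁻¹ * (b⁻¹ * a⁻¹ * b) := by group
          _ = _ := by rw [h5]
      rw [h4] at h3
      exact h3
    have h2 : φ * a * φ⁻¹ = a := by
      rw [← mul_inv_eq_one]
      exact h1
    rw [mul_inv_eq_iff_eq_mul] at h2
    exact h2.symm
  -- the group generated by `A` and `φ`
  have hcomZ : ∀ (a : A) (j : Multiplicative ℤ), Commute (A.subtype a) (zpowersHom Γ φ j) := by
    intro a j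
    rw [zpowersHom_apply]
    exact Commute.zpow_right (hcom a a.2) _
  let f : A × Multiplicative ℤ →* Γ := MonoidHom.noncommCoprod A.subtype (zpowersHom Γ φ) hcomZ
  have hf : ∀ (a : A) (j : Multiplicative ℤ), f (a, j) = a * φ ^ (Multiplicative.toAdd j) :=
    fun a j => rfl
  have hmem : ∀ x ∈ f.range, ∃ a ∈ A, ∃ j : ℤ, x = a * φ ^ j := by
    rintro _ ⟨⟨a, j⟩, rfl⟩
    exact ⟨a, a.2, Multiplicative.toAdd j, rfl⟩
  have hBA : ∀ a ∈ A, a ∈ f.range := by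
    intro a ha
    exact ⟨(⟨a, ha⟩, 1), by rw [hf]; simp⟩
  have hBφ : φ ∈ f.range := ⟨(1, Multiplicative.ofAdd 1), by rw [hf]; simp⟩
  have hBab : ∀ a ∈ f.range, ∀ b ∈ f.range, a * b = b * a := by
    rintro _ ⟨⟨a, i⟩, rfl⟩ _ ⟨⟨b, j⟩, rfl⟩
    rw [← map_mul, ← map_mul]
    congr 1
    refine Prod.ext ?_ ?_
    · exact Subtype.ext (hab a a.2 b b.2)
    · exact mul_comm i j
  have hBfg : f.range.FG := by
    have : Group.FG A := (Group.fg_iff_subgroup_fg A).2 hfg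
    have : Group.FG f.range := Group.fg_range f
    exact (Group.fg_iff_subgroup_fg _).1 this
  have hpow : ∀ a ∈ A, ∀ (j : ℤ) (k : ℕ), (a * φ ^ j) ^ k = a ^ k * φ ^ (j * k) := by
    intro a ha j k
    have h1 : Commute a (φ ^ j) := Commute.zpow_right (hcom a ha) j
    rw [h1.mul_pow, zpow_mul, zpow_natCast]
  by_cases ho : ∃ o : ℕ, o ≠ 0 ∧ φ ^ o ∈ A
  · obtain ⟨o, ho, hoA⟩ := ho
    obtain ⟨L, hL, h1⟩ := hF f.range hBab hBfg o ho
    obtain ⟨a, ha, haL⟩ := h L hL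
    obtain ⟨s, hs, hs2⟩ := h1 (a * φ) (f.range.mul_mem (hBA a ha) hBφ) haL
    obtain ⟨b, hb, j, rfl⟩ := hmem s hs
    have h2 : a * φ ∈ A := by
      rw [← hs2, hpow b hb, mul_comm j, zpow_mul, zpow_natCast]
      exact A.mul_mem (A.pow_mem hb _) (A.zpow_mem hoA _)
    exact (A.mul_mem_cancel_left ha).1 h2
  · exfalso
    obtain ⟨L, hL, h1⟩ := hF f.range hBab hBfg 2 two_ne_zero
    obtain ⟨a, ha, haL⟩ := h L hL
    obtain ⟨s, hs, hs2⟩ := h1 (a * φ) (f.range.mul_mem (hBA a ha) hBφ) haL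
    obtain ⟨b, hb, j, rfl⟩ := hmem s hs
    rw [hpow b hb] at hs2
    have h2 : φ ^ (j * (2 : ℕ) - 1) ∈ A := by
      have h3 : φ ^ (j * (2 : ℕ) - 1) = (b ^ 2)⁻¹ * a := by
        rw [zpow_sub, zpow_one, mul_inv_eq_iff_eq_mul, mul_assoc, ← hs2, inv_mul_cancel_left]
      rw [h3]
      exact A.mul_mem (A.inv_mem (A.pow_mem hb 2)) ha
    apply ho
    refine ⟨(j * (2 : ℕ) - 1).natAbs, ?_, ?_⟩
    · rw [Int.natAbs_ne_zero]
      push_cast
      omega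
    · rcases Int.natAbs_eq (j * (2 : ℕ) - 1) with h4 | h4
      · rw [h4, zpow_natCast] at h2
        exact h2
      · rw [h4, zpow_neg, zpow_natCast, inv_mem_iff] at h2
        exact h2

/-- virtually abelian groups -/
theorem virtual (hF : Full 𝓛) (hN : ∀ L ∈ 𝓛, L.Normal) (hne : 𝓛.Nonempty)
    (hdir : ∀ L₁ ∈ 𝓛, ∀ L₂ ∈ 𝓛, ∃ L ∈ 𝓛, L ≤ L₁ ∧ L ≤ L₂) {A A₀ : Subgroup Γ} (hA : A₀ ≤ A)
    (hfi : A₀.relIndex A ≠ 0) (hab : ∀ a ∈ A₀, ∀ b ∈ A₀, a * b = b * a) (hfg : A₀.FG) :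
    (∀ B : Subgroup Γ, B ≤ A → B.relIndex A ≠ 0 → ∃ L ∈ 𝓛, A ⊓ L ≤ B) ∧
    (∀ φ, φ ∉ A → ∃ L ∈ 𝓛, ∀ a ∈ A, a * φ ∉ L) := by
  -- finite families
  have hfam : ∀ (ι : Type _) [Finite ι] (L : ι → Subgroup Γ), (∀ i, L i ∈ 𝓛) →
      ∃ L' ∈ 𝓛, ∀ i, L' ≤ L i := by
    intro ι _ L hL
    have : ∀ s : Set ι, s.Finite → ∃ L' ∈ 𝓛, ∀ i ∈ s, L' ≤ L i := by
      intro s hs
      induction s, hs using Set.Finite.induction_on with
      | empty =>
        obtain ⟨L', hL'⟩ := hne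
        exact ⟨L', hL', by simp⟩
      | insert _ _ ih =>
        obtain ⟨L₁, hL₁, h1⟩ := ih
        rename_i a s _ _
        obtain ⟨L₂, hL₂, h2, h3⟩ := hdir L₁ hL₁ (L a) (hL a)
        refine ⟨L₂, hL₂, ?_⟩
        intro i hi
        rcases Set.mem_insert_iff.1 hi with rfl | hi
        · exact h3
        · exact h2.trans (h1 i hi)
    obtain ⟨L', hL', h1⟩ := this Set.univ Set.finite_univ
    exact ⟨L', hL', fun i => h1 i (Set.mem_univ i)⟩
  -- closed subgroups of finite index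
  have hfin : ∀ C : Subgroup Γ, C ≤ A → C.relIndex A ≠ 0 →
      (∀ φ : Γ, (∀ L ∈ 𝓛, ∃ a ∈ C, a * φ ∈ L) → φ ∈ C) →
      ∀ (S : Set Γ), (∀ x ∈ S, ∀ c ∈ C, c * x ∈ S) → ∀ (φ : Γ), (∀ x ∈ S, x * φ ∉ C) →
      ∃ L ∈ 𝓛, ∀ x ∈ S, x ∈ A → x * φ ∉ L := by
    intro C hCA hCfi hCcl S hS φ hφ
    have : (C.subgroupOf A).FiniteIndex := ⟨hCfi⟩
    -- right cosets
    let ι := Quotient (QuotientGroup.rightRel (C.subgroupOf A))
    have hι : Finite ι :=
      Finite.of_equiv _ (QuotientGroup.quotientRightRelEquivQuotientLeftRel (C.subgroupOf A)).symm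
    have hex : ∀ i : ι, ∃ L ∈ 𝓛, ∀ x ∈ S, ∀ hx : x ∈ A,
        (Quotient.mk (QuotientGroup.rightRel (C.subgroupOf A)) (⟨x, hx⟩ : A) : ι) = i →
        x * φ ∉ L := by
      intro i
      by_cases hi : ∃ x ∈ S, ∃ hx : x ∈ A,
        (Quotient.mk (QuotientGroup.rightRel (C.subgroupOf A)) (⟨x, hx⟩ : A) : ι) = i
      · obtain ⟨x, hxS, hxA, rfl⟩ := hi
        have h1 : ¬ ∀ L ∈ 𝓛, ∃ a ∈ C, a * (x * φ) ∈ L := fun h2 => hφ x hxS (hCcl _ h2)
        push Not at h1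
        obtain ⟨L, hL, h2⟩ := h1
        refine ⟨L, hL, ?_⟩
        intro y _ hyA hyx hyL
        have h3 := Quotient.exact hyx
        have h4 : x * y⁻¹ ∈ C := by
          have h5 := QuotientGroup.rightRel_apply.1 h3
          exact h5
        apply h2 (y * x⁻¹)
        · have := C.inv_mem h4
          simpa using this
        · simpa [mul_assoc] using hyL
      · push Not at hi
        obtain ⟨L, hL⟩ := hne
        exact ⟨L, hL, fun x hxS hxA hx => absurd hx (hi x hxS hxA)⟩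
    choose L hL hL2 using hex
    obtain ⟨L', hL', h1⟩ := hfam ι L hL
    refine ⟨L', hL', ?_⟩
    intro x hxS hxA hxL
    exact hL2 _ x hxS hxA rfl (h1 _ hxL)
  have hclosed : ∀ C : Subgroup Γ, C ≤ A₀ → C.relIndex A₀ ≠ 0 → ∀ φ : Γ,
      (∀ L ∈ 𝓛, ∃ a ∈ C, a * φ ∈ L) → φ ∈ C := by
    intro C hC hCfi φ hφ
    refine closed hF hN (fun a ha b hb => hab a (hC ha) b (hC hb)) ?_ hφ
    have : Group.FG A₀ := (Group.fg_iff_subgroup_fg A₀).2 hfg
    have : (C.subgroupOf A₀).FiniteIndex := ⟨hCfi⟩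
    have h1 : Group.FG (C.subgroupOf A₀) := Subgroup.fg_of_index_ne_zero _
    have h2 : Group.FG C := Group.fg_of_surjective (f := (Subgroup.subgroupOfEquivOfLe hC).toMonoidHom)
      (Subgroup.subgroupOfEquivOfLe hC).surjective
    exact (Group.fg_iff_subgroup_fg C).1 h2
  constructor
  · intro B hBA hB
    have hC1 : (A₀ ⊓ B).relIndex A ≠ 0 := Subgroup.relIndex_inf_ne_zero hfi hB
    have hC2 : (A₀ ⊓ B).relIndex A₀ ≠ 0 := fun h =>
      hC1 (Subgroup.relIndex_eq_zero_of_le_right hA h)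
    obtain ⟨L, hL, h1⟩ := hfin (A₀ ⊓ B) (inf_le_left.trans hA) hC1
      (hclosed (A₀ ⊓ B) inf_le_left hC2) {x | x ∉ A₀ ⊓ B}
      (fun x hx c hc h => hx (((A₀ ⊓ B).mul_mem_cancel_left hc).1 h)) 1
      (fun x hx h => hx (by rwa [mul_one] at h))
    refine ⟨L, hL, ?_⟩
    intro x hx
    by_contra hxB
    exact h1 x (fun h => hxB h.2) hx.1 (by rw [mul_one]; exact hx.2)
  · intro φ hφ
    obtain ⟨L, hL, h1⟩ := hfin A₀ hA hfi (hclosed A₀ le_rfl (by simp)) A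
      (fun x hx c hc => A.mul_mem (hA hc) hx) φ
      (fun x hx h => hφ ((A.mul_mem_cancel_left hx).1 (hA h)))
    exact ⟨L, hL, fun a ha => h1 a ha ha⟩

end topology

end Pool.Agent.H4.CS
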