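import Pool.Agent.H4.CS.Pol

/-!
# The kernels of the actions on the class functions of bounded degree

Let an automorphism of a free group act trivially on the class functions of degree less than `c`,
`c ≥ 2`.  If a power of it acts trivially on those of degree less than `c + 1`, then so does the
automorphism itself.
-/

set_option autoImplicit false

namespace Pool.Agent.H4.CS

open Function

section gen

variable {G R : Type} [Group G] [CommRing R]

/-- the class of the difference `dl h f` modulo lower degree is additive in `h` -/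
def sym (c : ℕ) (f : G → R) (hf : f ∈ P G R (c + 2)) :
    G →* Multiplicative ((G → R) ⧸ P G R c) where
  toFun h := Multiplicative.ofAdd ((P G R c).mkQ (dl G R h f))
  map_one' := by
    have h1 : dl G R 1 f = 0 := by
      funext x
      simp [dl_apply]
    rw [h1, map_zero]
    rfl
  map_mul' h k := by
    have h1 : dl G R (h * k) f = dl G R h f + dl G R k f + dl G R h (dl G R k f) := by
      funext x
      simp only [dl_apply, Pi.add_apply, mul_assoc]
      ring
    have h2 : dl G R h (dl G R k f) ∈ P G R c := mem_succ.1 (mem_succ.1 hf k) h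
    have h3 : (P G R c).mkQ (dl G R (h * k) f) =
        (P G R c).mkQ (dl G R h f) + (P G R c).mkQ (dl G R k f) := by
      rw [h1, map_add, map_add]
      have h4 : (P G R c).mkQ (dl G R h (dl G R k f)) = 0 :=
        (Submodule.Quotient.mk_eq_zero _).2 h2
      rw [h4, add_zero]
    show Multiplicative.ofAdd ((P G R c).mkQ (dl G R (h * k) f)) =
      Multiplicative.ofAdd ((P G R c).mkQ (dl G R h f) + (P G R c).mkQ (dl G R k f))
    rw [h3]

theorem comp_sub_mem (ψ : MulAut G)
    (hψ : ∀ (B : Type) [AddCommGroup B] (θ : G →* Multiplicative B) (h : G), θ (ψ h) = θ h)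
    (c : ℕ) (f : G → R) (hf : f ∈ P G R (c + 1)) :
    (fun x => f (ψ x) - f x) ∈ P G R c := by
  induction c generalizing f with
  | zero =>
    rw [mem_zero]
    have h1 : ∀ x, f x = f 1 := by
      intro x
      have h2 := mem_succ.1 hf x
      rw [mem_zero] at h2
      have h3 := congrFun h2 1
      rw [dl_apply, one_mul] at h3
      exact sub_eq_zero.1 h3
    funext x
    rw [h1 (ψ x), h1 x, sub_self]
    rfl
  | succ c ih =>
    rw [mem_succ]
    intro h
    have h1 := ih _ (mem_succ.1 hf h)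
    have h2 : dl G R (ψ h) f - dl G R h f ∈ P G R c := by
      have h3 := hψ _ (sym c f hf) h
      have h4 : (P G R c).mkQ (dl G R (ψ h) f) = (P G R c).mkQ (dl G R h f) :=
        congrArg Multiplicative.toAdd h3
      exact (Submodule.Quotient.eq _).1 h4
    have h5 := comp_mem ψ.toMonoidHom c _ h2
    have h6 : dl G R h (fun x => f (ψ x) - f x) =
        (fun x => dl G R h f (ψ x) - dl G R h f x) +
          fun x => (dl G R (ψ h) f - dl G R h f) (ψ.toMonoidHom x) := by
      funext x
      simp only [dl_apply, Pi.add_apply, Pi.sub_apply, MulEquiv.toMonoidHom_eq_coe,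
        MonoidHom.coe_coe, map_mul]
      ring
    rw [h6]
    exact Submodule.add_mem _ h1 h5

end gen

section free

variable {n : ℕ}

/-- the exponent sum of the generator `i` -/
def ex (i : Fin n) (w : FreeGroup (Fin n)) : ℤ :=
  Multiplicative.toAdd (FreeGroup.lift (fun j => Multiplicative.ofAdd (if j = i then (1 : ℤ) else 0)) w)

theorem ex_mul (i : Fin n) (v w : FreeGroup (Fin n)) : ex i (v * w) = ex i v + ex i w := by
  unfold ex
  rw [map_mul]
  rfl

theorem ex_one (i : Fin n) : ex i (1 : FreeGroup (Fin n)) = 0 := by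
  unfold ex
  rw [map_one]
  rfl

theorem ex_inv (i : Fin n) (w : FreeGroup (Fin n)) : ex i w⁻¹ = - ex i w := by
  have h := ex_mul i w w⁻¹
  rw [mul_inv_cancel, ex_one] at h
  omega

theorem ex_of (i j : Fin n) : ex i (FreeGroup.of j) = if j = i then 1 else 0 := by
  unfold ex
  rw [FreeGroup.lift_apply_of]
  rfl

theorem ex_mem (i : Fin n) : (ex i : FreeGroup (Fin n) → ℤ) ∈ CP (FreeGroup (Fin n)) ℤ 2 := by
  refine ⟨?_, fun g x => ?_⟩
  · rw [mem_succ]
    intro h
    have h1 : dl (FreeGroup (Fin n)) ℤ h (ex i) = ex i h • fun _ => (1 : ℤ) := by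
      funext x
      rw [dl_apply, ex_mul]
      simp
    rw [h1]
    exact Submodule.smul_mem _ _ one_mem'
  · rw [ex_mul, ex_mul, ex_inv]
    ring

theorem hom_eq {B : Type} [AddCommGroup B] (θ : FreeGroup (Fin n) →* Multiplicative B)
    (w : FreeGroup (Fin n)) :
    θ w = ∏ i, (θ (FreeGroup.of i)) ^ (ex i w) := by
  induction w using FreeGroup.induction_on with
  | C1 => simp [ex_one]
  | of j => 
    rw [Finset.prod_eq_single j]
    · simp [ex_of]
    · intro b _ hb
      simp [ex_of, hb.symm]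
    · simp
  | inv_of j ih =>
    rw [map_inv, ih, ← Finset.prod_inv_distrib]
    refine Finset.prod_congr rfl fun i _ => ?_
    rw [ex_inv, zpow_neg]
  | mul x y hx hy =>
    rw [map_mul, hx, hy, ← Finset.prod_mul_distrib]
    refine Finset.prod_congr rfl fun i _ => ?_
    rw [ex_mul, zpow_add]

theorem hom_inv {ψ : MulAut (FreeGroup (Fin n))} (h : ∀ i w, ex i (ψ w) = ex i w)
    (B : Type) [AddCommGroup B] (θ : FreeGroup (Fin n) →* Multiplicative B)
    (w : FreeGroup (Fin n)) : θ (ψ w) = θ w := by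
  rw [hom_eq θ (ψ w), hom_eq θ w]
  refine Finset.prod_congr rfl fun i _ => ?_
  rw [h]

theorem act_ex {c : ℕ} (hc : 2 ≤ c) {ψ : MulAut (FreeGroup (Fin n))}
    (h : act (FreeGroup (Fin n)) c ψ = 1) (i : Fin n) (w : FreeGroup (Fin n)) :
    ex i (ψ⁻¹ w) = ex i w := by
  have h1 := congrArg (fun T : Module.End ℤ (CP (FreeGroup (Fin n)) ℤ c) =>
    (T ⟨ex i, CP_mono hc (ex_mem i)⟩).1 w) h
  exact h1

theorem act_sub {c : ℕ} (hc : 2 ≤ c) {ψ : MulAut (FreeGroup (Fin n))}
    (h : act (FreeGroup (Fin n)) c ψ = 1) (f : CP (FreeGroup (Fin n)) ℤ (c + 1)) :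
    ((act (FreeGroup (Fin n)) (c + 1) ψ - 1) f).1 ∈ CP (FreeGroup (Fin n)) ℤ c := by
  refine ⟨?_, ((act (FreeGroup (Fin n)) (c + 1) ψ - 1) f).2.2⟩
  exact comp_sub_mem ψ⁻¹ (fun B _ θ w => hom_inv (fun i w => act_ex hc h i w) B θ w) c f.1 f.2.1

theorem act_sq {c : ℕ} (hc : 2 ≤ c) {ψ : MulAut (FreeGroup (Fin n))}
    (h : act (FreeGroup (Fin n)) c ψ = 1) :
    (act (FreeGroup (Fin n)) (c + 1) ψ - 1) * (act (FreeGroup (Fin n)) (c + 1) ψ - 1) = 0 := by
  apply LinearMap.ext
  intro f
  apply Subtype.ext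
  funext x
  have h1 := act_sub hc h f
  have h2 := congrArg (fun T : Module.End ℤ (CP (FreeGroup (Fin n)) ℤ c) => (T ⟨_, h1⟩).1 x) h
  have h3 : ((act (FreeGroup (Fin n)) (c + 1) ψ - 1) f).1 (ψ⁻¹ x) =
    ((act (FreeGroup (Fin n)) (c + 1) ψ - 1) f).1 x := h2
  show ((act (FreeGroup (Fin n)) (c + 1) ψ - 1) f).1 (ψ⁻¹ x) -
    ((act (FreeGroup (Fin n)) (c + 1) ψ - 1) f).1 x = 0
  rw [h3, sub_self]

theorem pow_unip {A : Type} [Ring A] {T : A} (h : (T - 1) * (T - 1) = 0) (k : ℕ) :
    T ^ k = 1 + (k : A) * (T - 1) := by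
  induction k with
  | zero => simp
  | succ k ih =>
    rw [pow_succ, ih]
    have h1 : T = 1 + (T - 1) := by abel
    calc (1 + (k : A) * (T - 1)) * T = (1 + (k : A) * (T - 1)) * (1 + (T - 1)) := by rw [← h1]
      _ = 1 + (T - 1) + (k : A) * (T - 1) + (k : A) * ((T - 1) * (T - 1)) := by
        noncomm_ring
      _ = 1 + ((k + 1 : ℕ) : A) * (T - 1) := by
        rw [h, mul_zero, add_zero]
        push_cast
        noncomm_ring

/-- the torsion-free steps -/
theorem act_of_pow {c : ℕ} (hc : 2 ≤ c) {ψ : MulAut (FreeGroup (Fin n))}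
    (h : act (FreeGroup (Fin n)) c ψ = 1) {k : ℕ} (hk : k ≠ 0)
    (h1 : act (FreeGroup (Fin n)) (c + 1) (ψ ^ k) = 1) :
    act (FreeGroup (Fin n)) (c + 1) ψ = 1 := by
  rw [map_pow, pow_unip (act_sq hc h)] at h1
  have h2 : (k : Module.End ℤ (CP (FreeGroup (Fin n)) ℤ (c + 1))) *
    (act (FreeGroup (Fin n)) (c + 1) ψ - 1) = 0 := by
    rwa [add_eq_left] at h1
  apply LinearMap.ext
  intro f
  apply Subtype.ext
  funext x
  have h3 := congrArg (fun T : Module.End ℤ (CP (FreeGroup (Fin n)) ℤ (c + 1)) => (T f).1 x) h2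
  have h4 : (k : ℤ) * ((act (FreeGroup (Fin n)) (c + 1) ψ f).1 x - f.1 x) = 0 := by
    rw [← nsmul_eq_mul] at h3
    simpa using h3
  have h5 : ((act (FreeGroup (Fin n)) (c + 1) ψ f).1 x - f.1 x) = 0 := by
    rcases mul_eq_zero.1 h4 with h6 | h6
    · exact absurd h6 (by exact_mod_cast hk)
    · exact h6
  exact sub_eq_zero.1 h5

end free

end Pool.Agent.H4.CS
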