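import Mathlib
import Pool.Agent.H4.CS.Com
import Pool.Agent.H4.CS.Tor
import Pool.Agent.H4.CS.Sep
import Pool.Agent.H4.CS.Top
import Pool.Agent.H4.CS.Out

/-!
# The congruence topology of `Out (F_n)` on finitely generated abelian subgroups
-/

set_option autoImplicit false

namespace Pool.Agent.H4.CS

/-- the action of the outer automorphisms on class functions -/
def actO (G : Type) [Group G] (c : ℕ) : Out G →* Module.End ℤ (CP G ℤ c) :=
  QuotientGroup.lift (Inn G) (act G c) (by
    rintro _ ⟨g, rfl⟩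
    exact act_conj c g)

theorem actO_mk (G : Type) [Group G] (c : ℕ) (ψ : MulAut G) :
    actO G c (QuotientGroup.mk ψ) = act G c ψ := rfl

theorem act_one_iff {G : Type} [Group G] {c : ℕ} {ψ : MulAut G} :
    act G c ψ = 1 ↔ ∀ f ∈ CP G ℤ c, ∀ x, f (ψ⁻¹ x) = f x := by
  constructor
  · intro h f hf x
    have h1 := congrArg (fun T : Module.End ℤ (CP G ℤ c) => (T ⟨f, hf⟩).1 x) h
    exact h1
  · intro h
    apply LinearMap.ext
    intro f
    apply Subtype.ext
    funext x
    exact h f.1 f.2 x

theorem ker_mono (G : Type) [Group G] (c : ℕ) : (actO G (c + 1)).ker ≤ (actO G c).ker := by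
  intro x hx
  induction x using QuotientGroup.induction_on with
  | H ψ =>
    rw [MonoidHom.mem_ker, actO_mk, act_one_iff] at hx ⊢
    exact fun f hf => hx f (CP_mono (Nat.le_succ c) hf)

theorem ker_sep (n : ℕ) (x : Out (FreeGroup (Fin n)))
    (hx : ∀ c, x ∈ (actO (FreeGroup (Fin n)) c).ker) : x = 1 := by
  induction x using QuotientGroup.induction_on with
  | H ψ =>
    have h1 : ∀ w, Same (ψ⁻¹ w) w := by
      intro w c f hf
      have h2 := hx c
      rw [MonoidHom.mem_ker, actO_mk, act_one_iff] at h2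
      exact h2 f hf w
    obtain ⟨g, hg⟩ := inner_of_same h1
    rw [QuotientGroup.eq_one_iff, ← inv_mem_iff, hg]
    exact ⟨g, rfl⟩

theorem full (n : ℕ) : Full (Kers (FreeGroup (Fin n))) := by
  intro A hab hfg e he
  let F := FreeGroup (Fin n)
  letI : CommGroup A :=
    { (inferInstance : Group A) with
      mul_comm := fun a b => Subtype.ext (hab a a.2 b b.2) }
  have hA : Group.FG A := (Group.fg_iff_subgroup_fg A).2 hfg
  let Z : ℕ → Subgroup A := fun c => (actO F c).ker.subgroupOf A
  obtain ⟨c, hc⟩ := chain (M := A) Z 2 (fun c x hx => ker_mono F c hx) (by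
      intro c hc x hx k hk hxk
      have hx' : (x : Out F) ∈ (actO F c).ker := hx
      have hxk' : ((x : Out F)) ^ k ∈ (actO F (c + 1)).ker := by
        have h1 : ((x ^ k : A) : Out F) ∈ (actO F (c + 1)).ker := hxk
        simpa using h1
      change (x : Out F) ∈ (actO F (c + 1)).ker
      revert hx' hxk'
      generalize (x : Out F) = y
      intro h1 h2
      induction y using QuotientGroup.induction_on with
      | H ψ =>
        rw [← QuotientGroup.mk_pow] at h2
        rw [MonoidHom.mem_ker, actO_mk] at h1 h2 ⊢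
        exact act_of_pow hc h1 hk h2) (by
      intro x hx
      apply Subtype.ext
      exact ker_sep n x hx)
  let ρ : A →* Module.End ℤ (CP F ℤ c) := (actO F c).comp A.subtype
  have hρ : Function.Injective ρ := by
    rw [← MonoidHom.ker_eq_bot_iff]
    exact hc
  have hTF : Module.IsTorsionFree ℤ (CP F ℤ c) := inferInstance
  obtain ⟨m, hm, h1⟩ := cc_end (CP F ℤ c) A ρ hρ e he
  have : NeZero m := ⟨hm⟩
  have hK : (Kc F m c).Characteristic := inferInstance
  refine ⟨(rho (Kc F m c)).ker, ⟨Kc F m c, hK, inferInstance, Kc_nil F m c, rfl⟩, ?_⟩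
  intro t htA ht
  have h2 : ∃ D : Module.End ℤ (CP F ℤ c), ρ ⟨t, htA⟩ = 1 + (m : ℤ) • D := by
    change ∃ D : Module.End ℤ (CP F ℤ c), actO F c t = 1 + (m : ℤ) • D
    clear htA
    induction t using QuotientGroup.induction_on with
    | H ψ =>
      rw [mem_ker_rho] at ht
      exact act_cong hm ht
  obtain ⟨s, hs⟩ := h1 ⟨t, htA⟩ h2
  exact ⟨s, s.2, congrArg Subtype.val hs⟩

end Pool.Agent.H4.CS
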