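import Pool.Agent.H4.CS.Tor

/-!
# Class functions of bounded degree on a free group which detect long cyclic words
-/

set_option autoImplicit false

namespace Pool.Agent.H4.CS

open Polynomial

section rep

variable {k : ℕ}

/-- the trace of a coefficient -/
def lam (K : ℕ) (a : (Matrix (Fin k) (Fin k) ℤ)[X]) : ℤ := (a.coeff K).trace

theorem lam_comm (K : ℕ) (a b : (Matrix (Fin k) (Fin k) ℤ)[X]) : lam K (a * b) = lam K (b * a) := by
  unfold lam
  rw [coeff_mul, coeff_mul, Matrix.trace_sum, Matrix.trace_sum]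
  refine Finset.sum_equiv (Equiv.prodComm ℕ ℕ) (fun i => ?_) (fun i _ => ?_)
  · simp [add_comm]
  · exact Matrix.trace_mul_comm _ _

variable {G : Type} [Group G]

theorem lam_mem (ρ : G →* ((Matrix (Fin k) (Fin k) ℤ)[X])ˣ)
    (hρ : ∀ h, ∃ b, (ρ h : (Matrix (Fin k) (Fin k) ℤ)[X]) = 1 + X * b) (K : ℕ) :
    ∀ d j : ℕ, d + j = K + 1 → ∀ a : (Matrix (Fin k) (Fin k) ℤ)[X], (∃ b, a = X ^ j * b) →
      (fun x => lam K ((ρ x : (Matrix (Fin k) (Fin k) ℤ)[X]) * a)) ∈ P G ℤ d := by
  intro d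
  induction d with
  | zero =>
    rintro j hj a ⟨b, rfl⟩
    rw [mem_zero]
    funext x
    have h1 : (ρ x : (Matrix (Fin k) (Fin k) ℤ)[X]) * (X ^ j * b) =
        X ^ j * ((ρ x : (Matrix (Fin k) (Fin k) ℤ)[X]) * b) := by
      rw [← mul_assoc, ← X_pow_mul, mul_assoc]
    unfold lam
    rw [h1, coeff_X_pow_mul', if_neg (by omega)]
    simp
  | succ d ih =>
    rintro j hj a ⟨b, rfl⟩
    rw [mem_succ]
    intro h
    obtain ⟨c, hc⟩ := hρ h
    have h1 := ih (j + 1) (by omega) ((X * c) * (X ^ j * b)) ⟨c * b, by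
      rw [mul_assoc, ← mul_assoc c, ← X_pow_mul, pow_succ', mul_assoc, mul_assoc]⟩
    have h2 : dl G ℤ h (fun x => lam K ((ρ x : (Matrix (Fin k) (Fin k) ℤ)[X]) * (X ^ j * b))) =
        fun x => lam K ((ρ x : (Matrix (Fin k) (Fin k) ℤ)[X]) * ((X * c) * (X ^ j * b))) := by
      funext x
      rw [dl_apply, map_mul, Units.val_mul, hc]
      unfold lam
      rw [← Matrix.trace_sub, ← coeff_sub]
      congr 2
      noncomm_ring
    rw [h2]
    exact h1

theorem lam_class (ρ : G →* ((Matrix (Fin k) (Fin k) ℤ)[X])ˣ)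
    (hρ : ∀ h, ∃ b, (ρ h : (Matrix (Fin k) (Fin k) ℤ)[X]) = 1 + X * b) (K : ℕ) :
    (fun x => lam K (ρ x : (Matrix (Fin k) (Fin k) ℤ)[X])) ∈ CP G ℤ (K + 1) := by
  refine ⟨?_, fun g x => ?_⟩
  · have h := lam_mem ρ hρ K (K + 1) 0 (by omega) 1 ⟨1, by simp⟩
    simpa using h
  · show lam K (ρ (g * x * g⁻¹) : (Matrix (Fin k) (Fin k) ℤ)[X]) = 
      lam K (ρ x : (Matrix (Fin k) (Fin k) ℤ)[X])
    rw [map_mul, Units.val_mul, lam_comm, ← Units.val_mul, ← map_mul]
    congr 3
    group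

end rep

/-! ### the representation of a cyclic word -/

section word

variable {n : ℕ}

/-- the value of a list of syllables -/
def val (L : List (Fin n × ℤ)) : FreeGroup (Fin n) :=
  (L.map fun p => FreeGroup.of p.1 ^ p.2).prod

theorem val_nil : val ([] : List (Fin n × ℤ)) = 1 := rfl

theorem val_cons (p : Fin n × ℤ) (L : List (Fin n × ℤ)) :
    val (p :: L) = FreeGroup.of p.1 ^ p.2 * val L := by
  simp [val]

theorem val_append (L M : List (Fin n × ℤ)) : val (L ++ M) = val L * val M := by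
  simp [val]

variable (k : ℕ) [NeZero k] (κ : Fin k → Fin n)

/-- the matrix of a letter -/
def N (i : Fin n) : Matrix (Fin k) (Fin k) ℤ := fun r s => if κ r = i ∧ s = r + 1 then 1 else 0

variable {k κ}

theorem N_apply (i : Fin n) (r s : Fin k) : N k κ i r s = if κ r = i ∧ s = r + 1 then 1 else 0 := rfl

theorem N_nonneg (i : Fin n) (r s : Fin k) : 0 ≤ N k κ i r s := by
  rw [N_apply]
  split_ifs <;> norm_num

theorem N_sq (hκ : ∀ r, κ r ≠ κ (r + 1)) (i : Fin n) : N k κ i * N k κ i = 0 := by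
  ext r s
  rw [Matrix.mul_apply, Matrix.zero_apply]
  refine Finset.sum_eq_zero fun t _ => ?_
  rw [N_apply, N_apply]
  by_cases h : κ r = i ∧ t = r + 1
  · by_cases h' : κ t = i ∧ s = t + 1
    · exfalso
      apply hκ r
      rw [h.1, ← h.2, h'.1]
    · rw [if_neg h', mul_zero]
  · rw [if_neg h, zero_mul]

/-- the units `1 + e N X` -/
noncomputable def U (hκ : ∀ r, κ r ≠ κ (r + 1)) (i : Fin n) (e : ℤ) :
    ((Matrix (Fin k) (Fin k) ℤ)[X])ˣ where
  val := 1 + X * C (e • N k κ i)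
  inv := 1 + X * C ((-e) • N k κ i)
  val_inv := by
    have h : (C (e • N k κ i) : (Matrix (Fin k) (Fin k) ℤ)[X]) * C ((-e) • N k κ i) = 0 := by
      rw [← C_mul, smul_mul_smul_comm, N_sq hκ, smul_zero, C_0]
    calc (1 + X * C (e • N k κ i)) * (1 + X * C ((-e) • N k κ i))
        = 1 + X * (C (e • N k κ i) + C ((-e) • N k κ i)) +
          X * C (e • N k κ i) * (X * C ((-e) • N k κ i)) := by noncomm_ring
      _ = 1 := by
        rw [← C_add, neg_smul, add_neg_cancel, C_0, mul_zero, add_zero, mul_assoc,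
          ← mul_assoc (C (e • N k κ i)), ← X_mul, mul_assoc, ← neg_smul, h, mul_zero, mul_zero,
          add_zero]
  inv_val := by
    have h : (C ((-e) • N k κ i) : (Matrix (Fin k) (Fin k) ℤ)[X]) * C (e • N k κ i) = 0 := by
      rw [← C_mul, smul_mul_smul_comm, N_sq hκ, smul_zero, C_0]
    calc (1 + X * C ((-e) • N k κ i)) * (1 + X * C (e • N k κ i))
        = 1 + X * (C ((-e) • N k κ i) + C (e • N k κ i)) +
          X * C ((-e) • N k κ i) * (X * C (e • N k κ i)) := by noncomm_ring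
      _ = 1 := by
        rw [← C_add, neg_smul, neg_add_cancel, C_0, mul_zero, add_zero, mul_assoc,
          ← mul_assoc (C (-(e • N k κ i))), ← X_mul, mul_assoc, ← neg_smul, h, mul_zero, mul_zero,
          add_zero]

theorem U_val (hκ : ∀ r, κ r ≠ κ (r + 1)) (i : Fin n) (e : ℤ) :
    (U hκ i e : (Matrix (Fin k) (Fin k) ℤ)[X]) = 1 + X * C (e • N k κ i) := rfl

theorem U_add (hκ : ∀ r, κ r ≠ κ (r + 1)) (i : Fin n) (a b : ℤ) :
    U hκ i (a + b) = U hκ i a * U hκ i b := by
  apply Units.ext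
  rw [Units.val_mul, U_val, U_val, U_val]
  have h : (C (a • N k κ i) : (Matrix (Fin k) (Fin k) ℤ)[X]) * C (b • N k κ i) = 0 := by
    rw [← C_mul, smul_mul_smul_comm, N_sq hκ, smul_zero, C_0]
  symm
  calc (1 + X * C (a • N k κ i)) * (1 + X * C (b • N k κ i))
      = 1 + X * (C (a • N k κ i) + C (b • N k κ i)) +
        X * C (a • N k κ i) * (X * C (b • N k κ i)) := by noncomm_ring
    _ = 1 + X * C ((a + b) • N k κ i) := by
      rw [← C_add, ← add_smul, mul_assoc,
        ← mul_assoc (C (a • N k κ i)), ← X_mul, mul_assoc, h, mul_zero, mul_zero,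
        add_zero]

/-- the homomorphism `e ↦ 1 + e N X` -/
noncomputable def Uh (hκ : ∀ r, κ r ≠ κ (r + 1)) (i : Fin n) :
    Multiplicative ℤ →* ((Matrix (Fin k) (Fin k) ℤ)[X])ˣ where
  toFun e := U hκ i (Multiplicative.toAdd e)
  map_one' := by
    apply Units.ext
    rw [U_val, toAdd_one, zero_smul, C_0, mul_zero, add_zero]
    rfl
  map_mul' a b := U_add hκ i _ _

theorem U_zpow (hκ : ∀ r, κ r ≠ κ (r + 1)) (i : Fin n) (e : ℤ) : U hκ i 1 ^ e = U hκ i e := by
  have h := map_zpow (Uh hκ i) (Multiplicative.ofAdd 1) e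
  rw [← ofAdd_zsmul] at h
  have h1 : Uh hκ i (Multiplicative.ofAdd (e • (1 : ℤ))) = U hκ i e := by
    show U hκ i (e • (1 : ℤ)) = _
    rw [smul_eq_mul, mul_one]
  rw [h1] at h
  exact h.symm

/-- the representation -/
noncomputable def rp (hκ : ∀ r, κ r ≠ κ (r + 1)) :
    FreeGroup (Fin n) →* ((Matrix (Fin k) (Fin k) ℤ)[X])ˣ :=
  FreeGroup.lift fun i => U hκ i 1

theorem rp_syl (hκ : ∀ r, κ r ≠ κ (r + 1)) (i : Fin n) (e : ℤ) :
    rp hκ (FreeGroup.of i ^ e) = U hκ i e := by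
  rw [map_zpow, rp, FreeGroup.lift_apply_of, U_zpow]

theorem rp_one (hκ : ∀ r, κ r ≠ κ (r + 1)) (h : FreeGroup (Fin n)) :
    ∃ b, (rp hκ h : (Matrix (Fin k) (Fin k) ℤ)[X]) = 1 + X * b := by
  have h1 : (Units.map (constantCoeff : (Matrix (Fin k) (Fin k) ℤ)[X] →+* _).toMonoidHom).comp
      (rp hκ) = 1 := by
    apply FreeGroup.ext_hom
    intro i
    apply Units.ext
    show constantCoeff ((rp hκ (FreeGroup.of i)) : (Matrix (Fin k) (Fin k) ℤ)[X]) = 1
    have h2 := rp_syl hκ i 1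
    rw [zpow_one] at h2
    rw [h2, U_val]
    simp
  have h2 : constantCoeff ((rp hκ h) : (Matrix (Fin k) (Fin k) ℤ)[X]) = 1 := by
    have h3 := congrArg (fun φ => ((φ h : (Matrix (Fin k) (Fin k) ℤ)ˣ) :
      Matrix (Fin k) (Fin k) ℤ)) h1
    exact h3
  refine ⟨divX (rp hκ h : (Matrix (Fin k) (Fin k) ℤ)[X]), ?_⟩
  have h4 := divX_mul_X_add (rp hκ h : (Matrix (Fin k) (Fin k) ℤ)[X])
  rw [constantCoeff_apply] at h2
  rw [h2, C_1] at h4
  rw [X_mul, add_comm]
  exact h4.symm

theorem rp_val (hκ : ∀ r, κ r ≠ κ (r + 1)) (L : List (Fin n × ℤ)) :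
    (rp hκ (val L) : (Matrix (Fin k) (Fin k) ℤ)[X]) =
      (L.map fun p => (1 + X * C (p.2 • N k κ p.1) : (Matrix (Fin k) (Fin k) ℤ)[X])).prod := by
  induction L with
  | nil => simp [val_nil]
  | cons p L ih =>
    rw [val_cons, map_mul, rp_syl, Units.val_mul, U_val, ih, List.map_cons, List.prod_cons]

theorem deg_le (p : Fin n × ℤ) :
    (1 + X * C (p.2 • N k κ p.1) : (Matrix (Fin k) (Fin k) ℤ)[X]).natDegree ≤ 1 := by
  refine (natDegree_add_le _ _).trans ?_
  rw [natDegree_one]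
  refine max_le (by norm_num) ?_
  refine natDegree_mul_le.trans ?_
  rw [natDegree_C]
  exact (add_le_add_left natDegree_X_le 0).trans (by norm_num)

/-- the value at a short word vanishes -/
theorem short (hκ : ∀ r, κ r ≠ κ (r + 1)) {M : List (Fin n × ℤ)} (hM : M.length < k) :
    lam k (rp hκ (val M) : (Matrix (Fin k) (Fin k) ℤ)[X]) = 0 := by
  unfold lam
  rw [coeff_eq_zero_of_natDegree_lt]
  · simp
  · rw [rp_val]
    refine (natDegree_list_prod_le _).trans_lt (lt_of_le_of_lt ?_ hM)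
    rw [List.map_map]
    refine (List.sum_le_card_nsmul _ 1 ?_).trans ?_
    · intro x hx
      rw [List.mem_map] at hx
      obtain ⟨p, _, rfl⟩ := hx
      exact deg_le p
    · simp

theorem top_coeff (hκ : ∀ r, κ r ≠ κ (r + 1)) {L : List (Fin n × ℤ)} (hL : L.length = k) :
    (rp hκ (val L) : (Matrix (Fin k) (Fin k) ℤ)[X]).coeff k =
      (L.map fun p => p.2).prod • (L.map fun p => N k κ p.1).prod := by
  rw [rp_val]
  have h := coeff_list_prod_of_natDegree_le
    (L.map fun p => (1 + X * C (p.2 • N k κ p.1) : (Matrix (Fin k) (Fin k) ℤ)[X])) 1 (by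
      intro x hx
      rw [List.mem_map] at hx
      obtain ⟨p, _, rfl⟩ := hx
      exact deg_le p)
  rw [List.length_map, hL, mul_one] at h
  rw [h, List.map_map]
  clear h hL
  induction L with
  | nil => simp
  | cons p L ih =>
    rw [List.map_cons, List.prod_cons, ih, List.map_cons, List.prod_cons, List.map_cons,
      List.prod_cons, ← smul_mul_smul_comm]
    congr 1
    simp [coeff_one, coeff_X_mul]

theorem prod_nonneg' (L : List (Fin n × ℤ)) (r s : Fin k) :
    0 ≤ (L.map fun p => N k κ p.1).prod r s := by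
  induction L generalizing r s with
  | nil =>
    rw [List.map_nil, List.prod_nil, Matrix.one_apply]
    split_ifs <;> norm_num
  | cons p L ih =>
    rw [List.map_cons, List.prod_cons, Matrix.mul_apply]
    exact Finset.sum_nonneg fun t _ => mul_nonneg (N_nonneg _ _ _) (ih _ _)

theorem prod_pos' {L : List (Fin n × ℤ)} (hL : L.length = k)
    (hκL : ∀ (j : ℕ) (hj : j < L.length), κ (Fin.ofNat k j) = (L[j]).1) (m : ℕ) (hm : m ≤ k) :
    1 ≤ ((L.take m).map fun p => N k κ p.1).prod 0 (Fin.ofNat k m) := by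
  induction m with
  | zero =>
    rw [List.take_zero, List.map_nil, List.prod_nil]
    have h1 : Fin.ofNat k 0 = 0 := by
      apply Fin.ext
      simp
    rw [h1, Matrix.one_apply_eq]
  | succ m ih =>
    have hm' : m < L.length := by omega
    have h1 := ih (by omega)
    rw [← List.take_concat_get hm', List.concat_eq_append, List.map_append, List.prod_append,
      List.map_cons, List.map_nil, List.prod_singleton, Matrix.mul_apply]
    refine h1.trans ?_
    refine le_trans ?_ (Finset.single_le_sum (f := fun t =>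
      (((L.take m).map fun p => N k κ p.1).prod 0 t) * N k κ (L[m]).1 t (Fin.ofNat k (m + 1)))
      (fun t _ => mul_nonneg (prod_nonneg' _ _ _) (N_nonneg _ _ _))
      (Finset.mem_univ (Fin.ofNat k m)))
    rw [N_apply, if_pos, mul_one]
    refine ⟨hκL m hm', ?_⟩
    apply Fin.ext
    simp [Fin.ofNat, Fin.val_add]

theorem trace_ge {T : Matrix (Fin k) (Fin k) ℤ} (hT : ∀ r s, 0 ≤ T r s) : T 0 0 ≤ T.trace := by
  unfold Matrix.trace
  exact Finset.single_le_sum (f := fun t : Fin k => Matrix.diag T t)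
    (fun t _ => hT t t) (Finset.mem_univ (0 : Fin k))

theorem long_ne (hκ : ∀ r, κ r ≠ κ (r + 1)) {L : List (Fin n × ℤ)} (hL : L.length = k)
    (hκL : ∀ (j : ℕ) (hj : j < L.length), κ (Fin.ofNat k j) = (L[j]).1)
    (h0 : ∀ p ∈ L, p.2 ≠ 0) :
    lam k (rp hκ (val L) : (Matrix (Fin k) (Fin k) ℤ)[X]) ≠ 0 := by
  unfold lam
  rw [top_coeff hκ hL, Matrix.trace_smul, smul_eq_mul]
  refine mul_ne_zero ?_ ?_
  · intro h
    rw [List.prod_eq_zero_iff, List.mem_map] at h
    obtain ⟨p, hp, hp0⟩ := h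
    exact h0 p hp hp0
  · have h1 := prod_pos' hL hκL k le_rfl
    have h3 : L.take k = L := List.take_of_length_le (by omega)
    have h2 : Fin.ofNat k k = 0 := by
      apply Fin.ext
      simp
    rw [h3, h2] at h1
    have h4 := trace_ge (fun r s => prod_nonneg' (k := k) (κ := κ) L r s)
    omega

end word

end Pool.Agent.H4.CS
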